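import Pool.Agent.Lib.MP_70c3c6_co.OD.Spec
import Pool.Agent.Lib.MP_70c3c6_co.EQ.CNT

/-!
# OD, module CNS: the combinatorial content of 2 t_2 = s + 1
-/

set_option autoImplicit false
open Classical

namespace Pool.Agent.Lib.MP_70c3c6_co.OD

open Pool.Agent.Lib.MP_70c3c6_co.EQ

namespace CNSM

open MPss CNTM

variable {A : Finset EQ.V3} {p : EQ.V3}

lemma even_Fn (A : Finset EQ.V3) : Even (Fn A).card := by
  have h : ∑ _x ∈ Fn A, (1 : ZMod 2) = 0 := by
    refine Finset.sum_involution (fun x _ => (x.2, x.1)) ?_ ?_ ?_ ?_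
    · intro x _
      decide
    · intro x hx _ h
      obtain ⟨-, h1, -⟩ := mem_Fn.1 hx
      apply h1
      have := congrArg Prod.fst h
      exact this.symm
    · intro x hx
      obtain ⟨⟨h1, h2⟩, h3, h4⟩ := mem_Fn.1 hx
      exact mem_Fn.2 ⟨⟨h2, h1⟩, Ne.symm h3, fun c hc hc1 hc2 => li3_swap (h4 c hc hc2 hc1)⟩
    · intro x _
      rfl
  rw [Finset.sum_const, nsmul_eq_mul, mul_one] at h
  exact (ZMod.natCast_eq_zero_iff_even).1 h

lemma offDiag_sub (hA : Arr A) (hm : (Ap A p).card = 2) : (Ap A p).offDiag ⊆ Fn A := by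
  intro x hx
  obtain ⟨hx1, hx2, hx3⟩ := Finset.mem_offDiag.1 hx
  refine mem_Fn.2 ⟨⟨(mem_Ap.1 hx1).1, (mem_Ap.1 hx2).1⟩, hx3, ?_⟩
  intro c hc h1 h2
  have hcp : dotProduct c p ≠ 0 := by
    intro h0
    have h4 : ({c, x.1, x.2} : Finset EQ.V3) ⊆ Ap A p := by
      intro y hy
      rcases Finset.mem_insert.1 hy with rfl | hy
      · exact mem_Ap.2 ⟨hc, h0⟩
      rcases Finset.mem_insert.1 hy with rfl | hy
      · exact hx1
      · rw [Finset.mem_singleton.1 hy]; exact hx2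
    have h5 := Finset.card_le_card h4
    rw [hm, Finset.card_eq_three.2 ⟨c, x.1, x.2, h1, h2, hx3, rfl⟩] at h5
    omega
  have h4 := li_of_through hA.li hcp (mem_Ap.1 hx1).1 (mem_Ap.1 hx1).2 (mem_Ap.1 hx2).1
    (mem_Ap.1 hx2).2 hx3
  exact li3_swap' (li3_swap h4)

end CNSM

open CNTM MPss CNSM in
theorem specCNS : SpecCNS := by
  intro A p hA hM hF
  obtain ⟨c1, hc1, c2, hc2, hc12, hp1, hp2⟩ := hM.two
  have hA'ne := Aq_pos hA hM
  have hex : ∀ a ∈ Aq A p, ∃ c, c ∈ good A p a := by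
    intro a ha
    obtain ⟨haA, hap⟩ := mem_Aq.1 ha
    obtain ⟨c, hc, hcp, h⟩ := exists_double hA.nz hA.li hc1 hc2 hc12 hp1 hp2 hM.m haA hap
    exact ⟨c, mem_good.2 ⟨⟨hc, hcp⟩, h⟩⟩
  have hg1 : ∀ a ∈ Aq A p, 1 ≤ (good A p a).card := fun a ha => Finset.card_pos.2 (hex a ha)
  have hg2 : ∀ a ∈ Aq A p, (Ap A p).card + 1 ≤ (good A p a).card + (Aq A p).card := by
    intro a ha
    obtain ⟨haA, hap⟩ := mem_Aq.1 ha
    exact count_line hA.nz hA.li haA hap
  have htot : A.card = (Ap A p).card + (Aq A p).card :=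
    (Finset.card_filter_add_card_filter_not (s := A) (fun c => dotProduct c p = 0)).symm
  have hm2 : 2 ≤ (Ap A p).card := by
    have h1 : ({c1, c2} : Finset EQ.V3) ⊆ Ap A p := by
      intro x hx
      rcases Finset.mem_insert.1 hx with rfl | hx
      · exact mem_Ap.2 ⟨hc1, hp1⟩
      · rw [Finset.mem_singleton.1 hx]
        exact mem_Ap.2 ⟨hc2, hp2⟩
    have h2 := Finset.card_le_card h1
    rwa [Finset.card_pair hc12] at h2
  have hs0 := two_sum_le (p := p) hA ∅ (Finset.empty_subset _) (by simp)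
  rw [Finset.card_empty, add_zero, hF, htot] at hs0
  have hs2 : (Ap A p).card = 2 →
      2 * ∑ a ∈ Aq A p, (good A p a).card + 2 ≤ 2 + (Aq A p).card + 1 := by
    intro hm
    have h1 := two_sum_le (p := p) hA _ (offDiag_sub hA hm) fun x hx =>
      ⟨(mem_Ap.1 (Finset.mem_offDiag.1 hx).1).2, (mem_Ap.1 (Finset.mem_offDiag.1 hx).2.1).2⟩
    rw [Finset.offDiag_card, hm, hF, htot, hm] at h1
    omega
  have hsum1 : (Aq A p).card ≤ ∑ a ∈ Aq A p, (good A p a).card := by
    have h1 : (Aq A p).card • 1 ≤ ∑ a ∈ Aq A p, (good A p a).card :=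
      Finset.card_nsmul_le_sum _ _ _ hg1
    rwa [smul_eq_mul, mul_one] at h1
  have hev := even_Fn A
  rw [hF, htot] at hev
  have hcard : (Ap A p).card + 1 = (Aq A p).card := by
    rcases le_or_gt (Ap A p).card (Aq A p).card with hmk | hmk
    · obtain ⟨r, hr⟩ := hev
      omega
    · exfalso
      obtain ⟨d, hd⟩ : ∃ d, (Ap A p).card = (Aq A p).card + d :=
        ⟨(Ap A p).card - (Aq A p).card, by omega⟩
      have h1 : (Aq A p).card • (d + 1) ≤ ∑ a ∈ Aq A p, (good A p a).card :=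
        Finset.card_nsmul_le_sum _ _ _ fun a ha => by
          have := hg2 a ha
          show d + 1 ≤ _
          omega
      rw [smul_eq_mul] at h1
      have hd1 : 1 ≤ d := by omega
      obtain ⟨k', hk'⟩ : ∃ k', (Aq A p).card = k' + 1 := ⟨(Aq A p).card - 1, by omega⟩
      rw [hd] at hs0 hm2 hs2
      rw [hk'] at h1 hs0 hs2 hm2
      have h2 : 2 * (k' * d) + 2 * d ≤ d + 1 := by nlinarith
      have h3 : d = 1 := by omega
      subst h3
      have h4 : k' = 0 := by omega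
      subst h4
      have h5 := hs2 (by omega)
      omega
  have hm3 : 3 ≤ (Ap A p).card := by
    by_contra hcon
    have h1 := hs2 (by omega)
    omega
  have hgood : ∀ a ∈ Aq A p, (good A p a).card ≤ 1 := by
    intro a ha
    by_contra hcon
    have h1 : ∑ x ∈ Aq A p, 1 < ∑ x ∈ Aq A p, (good A p x).card :=
      Finset.sum_lt_sum hg1 ⟨a, ha, by omega⟩
    rw [Finset.sum_const, smul_eq_mul, mul_one] at h1
    omega
  choose! t ht using hex
  refine ⟨t, by omega, hcard, fun a ha => mem_Ap.2 (mem_good.1 (ht a ha)).1, ?_, ?_⟩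
  · intro a ha b hb hba
    obtain ⟨hbA, hbp⟩ := mem_Aq.1 hb
    exact (mem_good.1 (ht a ha)).2 b hbA hbp hba
  · intro a ha c hc hct
    by_contra hcon
    push Not at hcon
    apply hct
    have h1 : c ∈ good A p a := mem_good.2 ⟨mem_Ap.1 hc, fun b hbA hbp hba =>
      hcon b (mem_Aq.2 ⟨hbA, hbp⟩) hba⟩
    exact Finset.card_le_one.1 (hgood a ha) c h1 (t a) (ht a ha)

end Pool.Agent.Lib.MP_70c3c6_co.OD
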