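import Pool.Agent.Lib.MP_70c3c6_co.OD.Spec

/-!
# AFF: the affine relation between two triples
-/

set_option autoImplicit false
open Classical

namespace Pool.Agent.Lib.MP_70c3c6_co.OD

open Pool.Agent.Lib.MP_70c3c6_co.EQ

namespace AFFM

lemma inj (P B : Fin 3 → V3) (D : V3) (hT : TT P B D) (h : Fin 3 → ℂ) (hh : ∀ i, h i ≠ 0)
    (O V : V3) (a : Fin 3 → ℂ) (hP : ∀ i, P i = h i • (V + a i • O)) : Function.Injective a := by
  intro i j hij
  by_contra hne
  have h1 : h j • P i = h i • P j := by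
    rw [hP i, hP j, hij, smul_smul, smul_smul, mul_comm]
  have h2 := congrArg (fun w => dotProduct (B i) w) h1
  simp only [dotProduct_smul, hT.BP i, smul_eq_mul, mul_zero] at h2
  rcases mul_eq_zero.1 h2.symm with h3 | h3
  · exact hh i h3
  · exact hT.Bne i j hne h3

lemma dp (B V O : V3) (c x : ℂ) : dotProduct B (c • (V + x • O)) =
    c * (dotProduct B V + x * dotProduct B O) := by
  rw [dotProduct_smul, dotProduct_add, dotProduct_smul, smul_eq_mul, smul_eq_mul]

lemma half (P B : Fin 3 → V3) (D : V3) (hT : TT P B D) (h : Fin 3 → ℂ) (hh : ∀ i, h i ≠ 0)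
    (O V : V3) (a : Fin 3 → ℂ) (hP : ∀ i, P i = h i • (V + a i • O)) (r s : ℂ)
    (hb : ∀ i, dotProduct (B i) O = r * a i + s) :
    r ≠ 0 ∧ a 0 * a 1 + a 0 * a 2 + a 1 * a 2 = a 0 ^ 2 + a 1 ^ 2 + a 2 ^ 2 ∧
    ∀ i, dotProduct (B i) O = r * (a i - (a 0 + a 1 + a 2) / 3) := by
  have hinj := inj P B D hT h hh O V a hP
  have hBP : ∀ i l, dotProduct (B i) (P l) = h l * ((a l - a i) * dotProduct (B i) O) := by
    intro i l
    have h0 : dotProduct (B i) V + a i * dotProduct (B i) O = 0 := by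
      have := hT.BP i
      rw [hP i, dp] at this
      exact (mul_eq_zero.1 this).resolve_left (hh i)
    rw [hP l, dp]
    linear_combination h l * h0
  have e : ∀ i j l, i ≠ j → i ≠ l → j ≠ l →
      (a l - a i) * (r * a i + s) + (a l - a j) * (r * a j + s) = 0 := by
    intro i j l hij hil hjl
    have h1 := hT.R2 i j l hij hil hjl
    rw [hBP i l, hBP j l, hb i, hb j] at h1
    have h2 : h l * ((a l - a i) * (r * a i + s) + (a l - a j) * (r * a j + s)) = 0 := by
      linear_combination h1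
    exact (mul_eq_zero.1 h2).resolve_left (hh l)
  have e2 := e 0 1 2 (by decide) (by decide) (by decide)
  have e1 := e 0 2 1 (by decide) (by decide) (by decide)
  have e0 := e 1 2 0 (by decide) (by decide) (by decide)
  have hne : a 2 - a 1 ≠ 0 := sub_ne_zero.2 (hinj.ne (by decide))
  have hs : r * (a 0 + a 1 + a 2) + 3 * s = 0 := by
    have : (a 2 - a 1) * (r * (a 0 + a 1 + a 2) + 3 * s) = 0 := by
      linear_combination e2 - e1
    exact (mul_eq_zero.1 this).resolve_left hne
  have hr : r ≠ 0 := by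
    intro hr
    have hs0 : s = 0 := by
      rw [hr] at hs
      linear_combination (1 / 3) * hs
    apply hT.Bne 0 1 (by decide)
    rw [hBP, hb, hr, hs0]
    ring
  refine ⟨hr, ?_, ?_⟩
  · have h1 : r * (a 0 * a 1 + a 0 * a 2 + a 1 * a 2 - (a 0 ^ 2 + a 1 ^ 2 + a 2 ^ 2)) = 0 := by
      linear_combination (1 / 2) * (e0 + e1 + e2)
    exact sub_eq_zero.1 ((mul_eq_zero.1 h1).resolve_left hr)
  · intro i
    rw [hb i]
    linear_combination (1 / 3) * hs

end AFFM

theorem specAFF : SpecAFF := by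
  intro P B D P' B' D' hT hT' hR O V V' a a' _ _ _ hP hP'
  have hh : ∀ i, dotProduct D' (P i) ≠ 0 := fun i => (hR i 0).1
  have hk : ∀ j, dotProduct D (P' j) ≠ 0 := fun j => (hR 0 j).2.1
  obtain ⟨h, hdef⟩ : ∃ h : Fin 3 → ℂ, ∀ i, dotProduct D' (P i) = h i := ⟨_, fun i => rfl⟩
  obtain ⟨k, kdef⟩ : ∃ k : Fin 3 → ℂ, ∀ j, dotProduct D (P' j) = k j := ⟨_, fun i => rfl⟩
  have hR3 : ∀ i j, dotProduct (B i) (P' j) * h i + dotProduct (B' j) (P i) * k j = 0 := by
    intro i j
    have := (hR i j).2.2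
    rwa [hdef, kdef] at this
  simp only [hdef] at hh hP
  simp only [kdef] at hk hP'
  have ia := AFFM.inj P B D hT h hh O V a hP
  have ia' := AFFM.inj P' B' D' hT' k hk O V' a' hP'
  have hstar : ∀ i j, dotProduct (B i) V' + a' j * dotProduct (B i) O + dotProduct (B' j) V +
      a i * dotProduct (B' j) O = 0 := by
    intro i j
    have h1 := hR3 i j
    rw [hP' j, hP i, AFFM.dp, AFFM.dp] at h1
    have h2 : h i * k j * (dotProduct (B i) V' + a' j * dotProduct (B i) O +
        dotProduct (B' j) V + a i * dotProduct (B' j) O) = 0 := by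
      linear_combination h1
    exact (mul_eq_zero.1 h2).resolve_left (mul_ne_zero (hh i) (hk j))
  have mixed : ∀ i i' j j', (a' j - a' j') * (dotProduct (B i) O - dotProduct (B i') O) +
      (a i - a i') * (dotProduct (B' j) O - dotProduct (B' j') O) = 0 := by
    intro i i' j j'
    linear_combination hstar i j - hstar i j' - hstar i' j + hstar i' j'
  have n1 : a 0 - a 1 ≠ 0 := sub_ne_zero.2 (ia.ne (by decide))
  have n2 : a' 0 - a' 1 ≠ 0 := sub_ne_zero.2 (ia'.ne (by decide))
  obtain ⟨r, hr⟩ : ∃ r : ℂ, dotProduct (B 0) O - dotProduct (B 1) O = r * (a 0 - a 1) :=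
    ⟨(dotProduct (B 0) O - dotProduct (B 1) O) / (a 0 - a 1), by field_simp⟩
  have hc : ∀ j j', dotProduct (B' j) O - dotProduct (B' j') O = - r * (a' j - a' j') := by
    intro j j'
    have h1 := mixed 0 1 j j'
    rw [hr] at h1
    have h2 : (a 0 - a 1) * (dotProduct (B' j) O - dotProduct (B' j') O + r * (a' j - a' j')) = 0 := by
      linear_combination h1
    have h3 := (mul_eq_zero.1 h2).resolve_left n1
    linear_combination h3
  have hb : ∀ i i', dotProduct (B i) O - dotProduct (B i') O = r * (a i - a i') := by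
    intro i i'
    have h1 := mixed i i' 0 1
    rw [hc 0 1] at h1
    have h2 : (a' 0 - a' 1) * (dotProduct (B i) O - dotProduct (B i') O - r * (a i - a i')) = 0 := by
      linear_combination h1
    have h3 := (mul_eq_zero.1 h2).resolve_left n2
    linear_combination h3
  obtain ⟨r0, q1, s1⟩ := AFFM.half P B D hT h hh O V a hP r (dotProduct (B 0) O - r * a 0)
    (fun i => by linear_combination hb i 0)
  obtain ⟨_, q2, s2⟩ := AFFM.half P' B' D' hT' k hk O V' a' hP' (-r)
    (dotProduct (B' 0) O + r * a' 0) (fun i => by linear_combination hc i 0)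
  exact ⟨ia, ia', q1, q2, r, r0, s1, s2⟩

end Pool.Agent.Lib.MP_70c3c6_co.OD
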