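import Pool.Agent.Lib.MP_70c3c6_co.OD.Spec

set_option autoImplicit false
open Classical

namespace Pool.Agent.Lib.MP_70c3c6_co.OD

open Pool.Agent.Lib.MP_70c3c6_co.EQ

namespace CNXaux

/-- the second divided difference -/
lemma dd {a0 a1 a2 k r s b al be : ℂ} (h01 : a0 ≠ a1) (h02 : a0 ≠ a2) (h12 : a1 ≠ a2)
    (h0 : al + be * a0 = (k * (a0 - a0) + b) * (r * (a0 - s)))
    (h1 : al + be * a1 = (k * (a0 - a1) + b) * (r * (a1 - s)))
    (h2 : al + be * a2 = (k * (a0 - a2) + b) * (r * (a2 - s))) : k * r = 0 := by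
  have h : k * r * ((a0 - a1) * (a0 - a2) * (a1 - a2)) = 0 := by
    linear_combination (a1 - a2) * h0 + (a2 - a0) * h1 + (a0 - a1) * h2
  rcases mul_eq_zero.1 h with h | h
  · exact h
  · rcases mul_eq_zero.1 h with h | h
    · rcases mul_eq_zero.1 h with h | h
      · exact absurd (sub_eq_zero.1 h) h01
      · exact absurd (sub_eq_zero.1 h) h02
    · exact absurd (sub_eq_zero.1 h) h12

end CNXaux

open CNXaux in
theorem specCNX (hREP : SpecREP) (hAFF : SpecAFF) : SpecCNX := by
  intro P B D P' B' D' P'' B'' D'' hT hT' hT'' hR hR'' p q hp hq hD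
  obtain ⟨O, hO, hDO, hD'O, hker, V, V', a, a', hP, hP'⟩ := hREP P B D P' B' D' hT hT' hR
  obtain ⟨hinj, -, -, -, r, hr, hBO, -⟩ :=
    hAFF P B D P' B' D' hT hT' hR O V V' a a' hO hDO hD'O hP hP'
  have hh : ∀ i, dotProduct D' (P i) ≠ 0 := fun i => (hR i 0).1
  have hg : dotProduct D (P' 0) ≠ 0 := (hR 0 0).2.1
  have he : dotProduct D (P'' 0) ≠ 0 := (hR'' 0 0).2.1
  -- the three points
  set h : Fin 3 → ℂ := fun i => dotProduct D' (P i) with hhdef
  set g : ℂ := dotProduct D (P' 0) with hgdef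
  set e : ℂ := dotProduct D (P'' 0) with hedef
  obtain ⟨Q, hQ⟩ : ∃ Q : V3, Q = V' + a' 0 • O := ⟨_, rfl⟩
  obtain ⟨R, hRdef⟩ : ∃ R : V3, R = e⁻¹ • P'' 0 := ⟨_, rfl⟩
  have hPR : P'' 0 = e • R := by
    rw [hRdef, smul_smul, mul_inv_cancel₀ he, one_smul]
  have hDpi : ∀ i, dotProduct D (V + a i • O) = 0 := by
    intro i
    have h1 := hT.DP i
    rw [hP i, dotProduct_smul, smul_eq_mul] at h1
    exact (mul_eq_zero.1 h1).resolve_left (hh i)
  have hD'pi : ∀ i, dotProduct D' (V + a i • O) = 1 := by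
    intro i
    have h1 : dotProduct D' (P i) = dotProduct D' (P i) * dotProduct D' (V + a i • O) := by
      conv_lhs => rw [hP i]
      rw [dotProduct_smul, smul_eq_mul]
    have h2 : dotProduct D' (P i) * (dotProduct D' (V + a i • O) - 1) = 0 := by
      linear_combination -h1
    exact sub_eq_zero.1 ((mul_eq_zero.1 h2).resolve_left (hh i))
  have hDQ : dotProduct D Q = 1 := by
    have h1 : g = g * dotProduct D Q := by
      conv_lhs => rw [hgdef, hP' 0]
      rw [dotProduct_smul, smul_eq_mul, ← hQ]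
    have h2 : g * (dotProduct D Q - 1) = 0 := by linear_combination -h1
    exact sub_eq_zero.1 ((mul_eq_zero.1 h2).resolve_left hg)
  have hD'Q : dotProduct D' Q = 0 := by
    have h1 := hT'.DP 0
    rw [hP' 0, dotProduct_smul, smul_eq_mul, ← hQ] at h1
    exact (mul_eq_zero.1 h1).resolve_left hg
  have hDR : dotProduct D R = 1 := by
    rw [hRdef, dotProduct_smul, smul_eq_mul, ← hedef, inv_mul_cancel₀ he]
  have hD''R : dotProduct D'' R = 0 := by
    rw [hRdef, dotProduct_smul, hT''.DP 0, smul_zero]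
  have hD'R : p + q * dotProduct D' R = 0 := by
    rw [hD, add_dotProduct, smul_dotProduct, smul_dotProduct, hDR, smul_eq_mul, smul_eq_mul] at hD''R
    linear_combination hD''R
  -- `R - Q` in terms of `p_0` and `O`
  obtain ⟨k, hk⟩ : ∃ k : ℂ, k = dotProduct D' R := ⟨_, rfl⟩
  rw [← hk] at hD'R
  have hk0 : k ≠ 0 := by
    intro h0
    rw [h0] at hD'R
    apply hp
    linear_combination hD'R
  obtain ⟨b, hb⟩ := hker (R - Q - k • (V + a 0 • O))
    (by rw [dotProduct_sub, dotProduct_sub, dotProduct_smul, hDR, hDQ, hDpi 0]; simp)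
    (by rw [dotProduct_sub, dotProduct_sub, dotProduct_smul, hD'Q, hD'pi 0, ← hk]; simp)
  have hRQ : R = Q + k • (V + a 0 • O) + b • O := by
    rw [← hb]; abel
  -- `B_i(p_0)`
  have hBp : ∀ i, dotProduct (B i) (V + a i • O) = 0 := by
    intro i
    have h1 := hT.BP i
    rw [hP i, dotProduct_smul, smul_eq_mul] at h1
    exact (mul_eq_zero.1 h1).resolve_left (hh i)
  have hBp0 : ∀ i, dotProduct (B i) (V + a 0 • O) = (a 0 - a i) * dotProduct (B i) O := by
    intro i
    have h1 := hBp i
    rw [dotProduct_add, dotProduct_smul, smul_eq_mul] at h1 ⊢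
    linear_combination h1
  -- R1 for (T,T')
  have hA : ∀ i, dotProduct (B i) Q = -(dotProduct (B' 0) V + a i * dotProduct (B' 0) O) := by
    intro i
    have h1 := (hR i 0).2.2
    have h2 : dotProduct (B i) (P' 0) = g * dotProduct (B i) Q := by
      rw [hP' 0, dotProduct_smul, smul_eq_mul, ← hQ]
    have h3 : dotProduct (B' 0) (P i) =
        dotProduct D' (P i) * (dotProduct (B' 0) V + a i * dotProduct (B' 0) O) := by
      conv_lhs => rw [hP i]
      rw [dotProduct_smul, smul_eq_mul, dotProduct_add, dotProduct_smul, smul_eq_mul]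
    rw [h2, h3] at h1
    have h4 : (dotProduct D' (P i) * g) *
        (dotProduct (B i) Q + (dotProduct (B' 0) V + a i * dotProduct (B' 0) O)) = 0 := by
      linear_combination h1
    have h5 := (mul_eq_zero.1 h4).resolve_left (mul_ne_zero (hh i) hg)
    linear_combination h5
  -- R1 for (T,T'')
  have hC : ∀ i, q * dotProduct (B i) R =
      -(dotProduct (B'' 0) V + a i * dotProduct (B'' 0) O) := by
    intro i
    have h1 := (hR'' i 0).2.2
    have h2 : dotProduct (B i) (P'' 0) = e * dotProduct (B i) R := by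
      rw [hPR, dotProduct_smul, smul_eq_mul]
    have h3 : dotProduct (B'' 0) (P i) =
        dotProduct D' (P i) * (dotProduct (B'' 0) V + a i * dotProduct (B'' 0) O) := by
      conv_lhs => rw [hP i]
      rw [dotProduct_smul, smul_eq_mul, dotProduct_add, dotProduct_smul, smul_eq_mul]
    have h6 : dotProduct D'' (P i) = q * dotProduct D' (P i) := by
      rw [hD, add_dotProduct, smul_dotProduct, smul_dotProduct, hT.DP i, smul_zero, zero_add,
        smul_eq_mul]
    rw [h2, h3, h6] at h1
    have h4 : (dotProduct D' (P i) * e) *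
        (q * dotProduct (B i) R + (dotProduct (B'' 0) V + a i * dotProduct (B'' 0) O)) = 0 := by
      linear_combination h1
    have h5 := (mul_eq_zero.1 h4).resolve_left (mul_ne_zero (hh i) he)
    linear_combination h5
  -- the affine identity
  have hE : ∀ i, (dotProduct (B' 0) V - q⁻¹ * dotProduct (B'' 0) V) +
      (dotProduct (B' 0) O - q⁻¹ * dotProduct (B'' 0) O) * a i =
      (k * (a 0 - a i) + b) * (r * (a i - (a 0 + a 1 + a 2) / 3)) := by
    intro i
    have h1 : dotProduct (B i) R = dotProduct (B i) Q + k * ((a 0 - a i) * dotProduct (B i) O) +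
        b * dotProduct (B i) O := by
      conv_lhs => rw [hRQ]
      rw [dotProduct_add, dotProduct_add, dotProduct_smul, dotProduct_smul, hBp0 i, smul_eq_mul,
        smul_eq_mul]
    have h2 : dotProduct (B i) R =
        -q⁻¹ * (dotProduct (B'' 0) V + a i * dotProduct (B'' 0) O) := by
      have h3 := hC i
      have h4 : q⁻¹ * (q * dotProduct (B i) R) = dotProduct (B i) R := by
        rw [← mul_assoc, inv_mul_cancel₀ hq, one_mul]
      rw [← h4, h3]; ring
    rw [h2, hA i, hBO i] at h1
    linear_combination h1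
  have h0 := hE 0
  have h1 := hE 1
  have h2 := hE 2
  have hfin := dd (hinj.ne (by decide : (0 : Fin 3) ≠ 1)) (hinj.ne (by decide : (0 : Fin 3) ≠ 2))
    (hinj.ne (by decide : (1 : Fin 3) ≠ 2)) h0 h1 h2
  exact (mul_ne_zero hk0 hr) hfin

end Pool.Agent.Lib.MP_70c3c6_co.OD
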