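import Pool.Agent.Lib.MP_70c3c6_co.OD.Spec

/-!
MP_70c3c6_co, module FOR: at most three triples.
-/

set_option autoImplicit false
open Classical

namespace Pool.Agent.Lib.MP_70c3c6_co.OD

open Pool.Agent.Lib.MP_70c3c6_co.EQ

namespace FORM

/-- three roots of t ^ 2 + t + 1 are not different -/
theorem roots {t1 t2 t3 : ℂ} (h1 : t1 ^ 2 + t1 + 1 = 0) (h2 : t2 ^ 2 + t2 + 1 = 0)
    (h3 : t3 ^ 2 + t3 + 1 = 0) : t1 = t2 ∨ t1 = t3 ∨ t2 = t3 := by
  by_cases h : t1 = t2
  · exact Or.inl h
  · right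
    have h4 : t1 + t2 + 1 = 0 := by
      have : (t1 - t2) * (t1 + t2 + 1) = 0 := by linear_combination h1 - h2
      exact (mul_eq_zero.1 this).resolve_left (sub_ne_zero.2 h)
    have h5 : (t1 - t3) * (t2 - t3) = 0 := by
      linear_combination h3 + (t1 - t3) * h4 - h1
    rcases mul_eq_zero.1 h5 with h6 | h6
    · exact Or.inl (sub_eq_zero.1 h6)
    · exact Or.inr (sub_eq_zero.1 h6)

/-- the vectors orthogonal to two independent vectors are proportional -/
theorem prop {P Q D W : V3} (ind : ∀ c0 c1 : ℂ, c0 • P + c1 • Q = 0 → c0 = 0 ∧ c1 = 0)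
    (hD : D ≠ 0) (h1 : dotProduct D P = 0) (h2 : dotProduct D Q = 0) (h3 : dotProduct W P = 0)
    (h4 : dotProduct W Q = 0) : ∃ p : ℂ, W = p • D := by
  simp only [dotProduct, Fin.sum_univ_three] at h1 h2 h3 h4
  set N : Fin 3 → ℂ := ![P 1 * Q 2 - P 2 * Q 1, P 2 * Q 0 - P 0 * Q 2, P 0 * Q 1 - P 1 * Q 0]
    with hN
  have n0 : N 0 = P 1 * Q 2 - P 2 * Q 1 := rfl
  have n1 : N 1 = P 2 * Q 0 - P 0 * Q 2 := rfl
  have n2 : N 2 = P 0 * Q 1 - P 1 * Q 0 := rfl
  -- both vectors are proportional to `N`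
  have key : ∀ X : Fin 3 → ℂ, X 0 * P 0 + X 1 * P 1 + X 2 * P 2 = 0 →
      X 0 * Q 0 + X 1 * Q 1 + X 2 * Q 2 = 0 → ∀ i j, X i * N j = X j * N i := by
    intro X e1 e2
    have a01 : X 0 * N 1 = X 1 * N 0 := by
      rw [n0, n1]; linear_combination P 2 * e2 - Q 2 * e1
    have a12 : X 1 * N 2 = X 2 * N 1 := by
      rw [n1, n2]; linear_combination P 0 * e2 - Q 0 * e1
    have a20 : X 2 * N 0 = X 0 * N 2 := by
      rw [n0, n2]; linear_combination P 1 * e2 - Q 1 * e1
    intro i j
    fin_cases i <;> fin_cases j <;>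
      first | rfl | exact a01 | exact a01.symm | exact a12 | exact a12.symm | exact a20 |
        exact a20.symm
  have hW := key W h3 h4
  have hDD := key D h1 h2
  have hne : ∃ i, N i ≠ 0 := by
    by_contra hc
    push Not at hc
    have c0 := hc 0
    have c1 := hc 1
    have c2 := hc 2
    rw [n0] at c0
    rw [n1] at c1
    rw [n2] at c2
    have q0 := ind (Q 0) (-P 0) (by
      ext i
      fin_cases i
      · show Q 0 * P 0 + -P 0 * Q 0 = 0
        ring
      · show Q 0 * P 1 + -P 0 * Q 1 = 0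
        linear_combination -c2
      · show Q 0 * P 2 + -P 0 * Q 2 = 0
        linear_combination c1)
    have q1 := ind (Q 1) (-P 1) (by
      ext i
      fin_cases i
      · show Q 1 * P 0 + -P 1 * Q 0 = 0
        linear_combination c2
      · show Q 1 * P 1 + -P 1 * Q 1 = 0
        ring
      · show Q 1 * P 2 + -P 1 * Q 2 = 0
        linear_combination -c0)
    have q2 := ind (Q 2) (-P 2) (by
      ext i
      fin_cases i
      · show Q 2 * P 0 + -P 2 * Q 0 = 0
        linear_combination -c1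
      · show Q 2 * P 1 + -P 2 * Q 1 = 0
        linear_combination c0
      · show Q 2 * P 2 + -P 2 * Q 2 = 0
        ring)
    have hP : P = 0 := by
      ext i
      fin_cases i
      · exact neg_eq_zero.1 q0.2
      · exact neg_eq_zero.1 q1.2
      · exact neg_eq_zero.1 q2.2
    have := ind 1 0 (by rw [hP]; simp)
    exact one_ne_zero this.1
  obtain ⟨i, hi⟩ := hne
  have hDi : D i ≠ 0 := by
    intro h0
    apply hD
    ext j
    have h5 := hDD j i
    rw [h0, zero_mul] at h5
    exact (mul_eq_zero.1 h5).resolve_right hi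
  refine ⟨W i / D i, ?_⟩
  ext j
  show W j = W i / D i * D j
  have e1 := hW j i
  have e2 := hDD j i
  have e3 : (W j * D i - W i * D j) * N i = 0 := by
    linear_combination D i * e1 - W i * e2
  have e4 : W j * D i = W i * D j := sub_eq_zero.1 ((mul_eq_zero.1 e3).resolve_right hi)
  field_simp
  exact e4

end FORM

open FORM

theorem specFOR (hHES : SpecHES) (hCNX : SpecCNX) : SpecFOR := by
  intro P B D hTT hRR
  have h0 := hTT 0
  obtain ⟨u, v, hu, hv, huv⟩ := h0.sp
  -- two lines with the same ratio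
  have hh : ∀ n : Fin 4, 0 ≠ n → dotProduct (D n) (P 0 0) ≠ 0 ∧ dotProduct (D n) (P 0 1) ≠ 0 ∧
      (u * dotProduct (D n) (P 0 0) / (v * dotProduct (D n) (P 0 1))) ^ 2 +
        u * dotProduct (D n) (P 0 0) / (v * dotProduct (D n) (P 0 1)) + 1 = 0 := by
    intro n hn
    have e0 := (hRR 0 n hn 0 0).1
    have e1 := (hRR 0 n hn 1 0).1
    refine ⟨e0, e1, ?_⟩
    have e2 := hHES _ _ _ _ _ _ h0 (hTT n) (hRR 0 n hn) u v huv
    have e3 : v * dotProduct (D n) (P 0 1) ≠ 0 := mul_ne_zero hv e1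
    field_simp
    linear_combination e2
  -- the contradiction for two lines with the same ratio
  have fin : ∀ n m : Fin 4, 0 ≠ n → 0 ≠ m → n ≠ m →
      u * dotProduct (D n) (P 0 0) / (v * dotProduct (D n) (P 0 1)) =
        u * dotProduct (D m) (P 0 0) / (v * dotProduct (D m) (P 0 1)) → False := by
    intro n m hn hm hnm he
    obtain ⟨n0, n1, -⟩ := hh n hn
    obtain ⟨m0, m1, -⟩ := hh m hm
    have e1 : dotProduct (D n) (P 0 0) * dotProduct (D m) (P 0 1) =
        dotProduct (D m) (P 0 0) * dotProduct (D n) (P 0 1) := by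
      rw [div_eq_div_iff (mul_ne_zero hv n1) (mul_ne_zero hv m1)] at he
      have e2 : (u * v) * (dotProduct (D n) (P 0 0) * dotProduct (D m) (P 0 1) -
          dotProduct (D m) (P 0 0) * dotProduct (D n) (P 0 1)) = 0 := by
        linear_combination he
      exact sub_eq_zero.1 ((mul_eq_zero.1 e2).resolve_left (mul_ne_zero hu hv))
    set c : ℂ := dotProduct (D m) (P 0 0) / dotProduct (D n) (P 0 0) with hc
    have hc0 : c ≠ 0 := div_ne_zero m0 n0
    have w0 : dotProduct (D m - c • D n) (P 0 0) = 0 := by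
      rw [sub_dotProduct, smul_dotProduct, smul_eq_mul, hc, div_mul_cancel₀ _ n0, sub_self]
    have w1 : dotProduct (D m - c • D n) (P 0 1) = 0 := by
      rw [sub_dotProduct, smul_dotProduct, smul_eq_mul, hc]
      field_simp
      linear_combination e1
    obtain ⟨p, hp⟩ := prop h0.ind h0.D0 (h0.DP 0) (h0.DP 1) w0 w1
    have hDm : D m = p • D 0 + c • D n := by
      rw [← hp]
      abel
    have hp0 : p ≠ 0 := by
      intro hp0
      have e3 := (hRR n m hnm 0 0).1
      apply e3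
      rw [hDm, hp0, zero_smul, zero_add, smul_dotProduct, (hTT n).DP 0, smul_zero]
    exact hCNX _ _ _ _ _ _ _ _ _ h0 (hTT n) (hTT m) (hRR 0 n hn) (hRR 0 m hm) p c hp0 hc0 hDm
  have n1 : (0 : Fin 4) ≠ 1 := by decide
  have n2 : (0 : Fin 4) ≠ 2 := by decide
  have n3 : (0 : Fin 4) ≠ 3 := by decide
  rcases roots (hh 1 n1).2.2 (hh 2 n2).2.2 (hh 3 n3).2.2 with h | h | h
  · exact fin 1 2 n1 n2 (by decide) h
  · exact fin 1 3 n1 n3 (by decide) h
  · exact fin 2 3 n2 n3 (by decide) h

end Pool.Agent.Lib.MP_70c3c6_co.OD
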