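import Pool.Agent.Lib.MP_70c3c6_co.OD.Spec

/-!
MP_70c3c6_co, equality case for an odd number of lines, FWS: equality implies the standard form.
-/

set_option autoImplicit false
open Classical

namespace Pool.Agent.Lib.MP_70c3c6_co.OD

open Pool.Agent.Lib.MP_70c3c6_co.EQ

namespace FWSM

/-- the functional given by `p` -/
def pf (p : V3) : V3 →ₗ[ℂ] ℂ where
  toFun w := dotProduct w p
  map_add' u v := add_dotProduct u v p
  map_smul' c u := by
    simp only [RingHom.id_apply]
    exact smul_dotProduct c u p

theorem pf_apply (p w : V3) : pf p w = dotProduct w p := rfl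

/-- the coordinate map -/
noncomputable def mp (p : V3) (f0 f1 : V3 →ₗ[ℂ] ℂ) (a1 b1 c1 a2 b2 c2 : ℂ) : V3 →ₗ[ℂ] V3 :=
  LinearMap.pi ![a1 • f0 + b1 • f1 + c1 • pf p, a2 • f0 + b2 • f1 + c2 • pf p, pf p]

theorem mp_apply (p : V3) (f0 f1 : V3 →ₗ[ℂ] ℂ) (a1 b1 c1 a2 b2 c2 : ℂ) (w : V3) :
    mp p f0 f1 a1 b1 c1 a2 b2 c2 w = ![a1 * f0 w + b1 * f1 w + c1 * dotProduct w p,
      a2 * f0 w + b2 * f1 w + c2 * dotProduct w p, dotProduct w p] := by
  ext i
  fin_cases i
  · simp [mp, pf_apply]
  · simp [mp, pf_apply]
  · simp [mp, pf_apply]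

end FWSM

open FWSM in
theorem specFWS (hCNS : SpecCNS) (hCRS : SpecCRS) (hSIX : SpecSIX) (hSFN : SpecSFN) :
    SpecFWS := by
  intro A p hA hM heq
  obtain ⟨t, hE⟩ := hCNS A p hA hM heq
  obtain ⟨f0, f1, τ, E, hker, S, hcE⟩ := hCRS A p t hA hM hE
  have hcard : Fintype.card {a // a ∈ Aq A p} = (Aq A p).card := Fintype.card_coe _
  have hsix := hSIX {a // a ∈ Aq A p} _ _ τ E S
  obtain ⟨a1, b1, c1, a2, b2, c2, hdet, hpt, hdir⟩ := hSFN {a // a ∈ Aq A p} _ _ τ E S hsix
  have hinj : Function.Injective (mp p f0 f1 a1 b1 c1 a2 b2 c2) := by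
    rw [← LinearMap.ker_eq_bot, LinearMap.ker_eq_bot']
    intro w hw
    rw [mp_apply] at hw
    have e0 := congrFun hw 0
    have e1 := congrFun hw 1
    have e2 := congrFun hw 2
    have e0' : a1 * f0 w + b1 * f1 w + c1 * dotProduct w p = 0 := e0
    have e1' : a2 * f0 w + b2 * f1 w + c2 * dotProduct w p = 0 := e1
    have e2' : dotProduct w p = 0 := e2
    rw [e2', mul_zero, add_zero] at e0' e1'
    refine hker w ?_ ?_ e2'
    · refine (mul_eq_zero.mp (?_ : (a1 * b2 - a2 * b1) * f0 w = 0)).resolve_left hdet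
      linear_combination b2 * e0' - b1 * e1'
    · refine (mul_eq_zero.mp (?_ : (a1 * b2 - a2 * b1) * f1 w = 0)).resolve_left hdet
      linear_combination a1 * e1' - a2 * e0'
  refine ⟨?_, LinearEquiv.ofInjectiveEndo _ hinj, ?_⟩
  · have h1 : A.card = (Ap A p).card + (Aq A p).card :=
      (Finset.card_filter_add_card_filter_not (s := A) (fun c => dotProduct c p = 0)).symm
    have h2 := hE.card
    omega
  · intro a ha
    have hMa : (LinearEquiv.ofInjectiveEndo _ hinj) a = mp p f0 f1 a1 b1 c1 a2 b2 c2 a := rfl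
    rw [hMa, mp_apply]
    by_cases hap : dotProduct a p = 0
    · obtain ⟨hc0, hcE'⟩ := hcE a (Finset.mem_filter.mpr ⟨ha, hap⟩)
      have h3 : f0 a * (f1 a / f0 a) = f1 a := mul_div_cancel₀ _ hc0
      rcases hdir _ hcE' with h | h | ⟨ω, hω, h1⟩
      · have h2 : a2 + b2 * (f1 a / f0 a) ≠ 0 := by
          intro h'
          apply hdet
          linear_combination b2 * h - b1 * h'
        refine ⟨1, one_pow 3, f0 a * (a2 + b2 * (f1 a / f0 a)), mul_ne_zero hc0 h2,
          Or.inr (Or.inl ?_)⟩
        ext i
        fin_cases i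
        · show a1 * f0 a + b1 * f1 a + c1 * dotProduct a p =
            f0 a * (a2 + b2 * (f1 a / f0 a)) * 0
          rw [hap]
          linear_combination (-b1) * h3 + f0 a * h
        · show a2 * f0 a + b2 * f1 a + c2 * dotProduct a p =
            f0 a * (a2 + b2 * (f1 a / f0 a)) * 1
          rw [hap]
          linear_combination (-b2) * h3
        · show dotProduct a p = f0 a * (a2 + b2 * (f1 a / f0 a)) * 0
          rw [hap, mul_zero]
      · have h2 : a1 + b1 * (f1 a / f0 a) ≠ 0 := by
          intro h'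
          apply hdet
          linear_combination b2 * h' - b1 * h
        refine ⟨1, one_pow 3, f0 a * (a1 + b1 * (f1 a / f0 a)), mul_ne_zero hc0 h2, Or.inl ?_⟩
        ext i
        fin_cases i
        · show a1 * f0 a + b1 * f1 a + c1 * dotProduct a p =
            f0 a * (a1 + b1 * (f1 a / f0 a)) * 1
          rw [hap]
          linear_combination (-b1) * h3
        · show a2 * f0 a + b2 * f1 a + c2 * dotProduct a p =
            f0 a * (a1 + b1 * (f1 a / f0 a)) * 0
          rw [hap]
          linear_combination (-b2) * h3 + f0 a * h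
        · show dotProduct a p = f0 a * (a1 + b1 * (f1 a / f0 a)) * 0
          rw [hap, mul_zero]
      · have h2 : a1 + b1 * (f1 a / f0 a) ≠ 0 := by
          intro h
          rw [h, mul_zero] at h1
          apply hdet
          linear_combination b2 * h - b1 * h1
        refine ⟨ω, hω, f0 a * (a1 + b1 * (f1 a / f0 a)), mul_ne_zero hc0 h2,
          Or.inr (Or.inr (Or.inl ?_))⟩
        ext i
        fin_cases i
        · show a1 * f0 a + b1 * f1 a + c1 * dotProduct a p =
            f0 a * (a1 + b1 * (f1 a / f0 a)) * 1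
          rw [hap]
          linear_combination (-b1) * h3
        · show a2 * f0 a + b2 * f1 a + c2 * dotProduct a p =
            f0 a * (a1 + b1 * (f1 a / f0 a)) * (-ω)
          rw [hap]
          linear_combination (-b2) * h3 + f0 a * h1
        · show dotProduct a p = f0 a * (a1 + b1 * (f1 a / f0 a)) * 0
          rw [hap, mul_zero]
    · obtain ⟨ζ, hζ, h1⟩ := hpt ⟨a, Finset.mem_filter.mpr ⟨ha, hap⟩⟩
      have e0 : dotProduct a p * (f0 a / dotProduct a p) = f0 a := mul_div_cancel₀ _ hap
      have e1 : dotProduct a p * (f1 a / dotProduct a p) = f1 a := mul_div_cancel₀ _ hap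
      refine ⟨ζ, hζ, dotProduct a p, hap, ?_⟩
      rcases h1 with ⟨h1, h2⟩ | ⟨h1, h2⟩
      · have h1' : a1 * (f0 a / dotProduct a p) + b1 * (f1 a / dotProduct a p) + c1 = -ζ := h1
        have h2' : a2 * (f0 a / dotProduct a p) + b2 * (f1 a / dotProduct a p) + c2 = 0 := h2
        right
        right
        right
        left
        ext i
        fin_cases i
        · show a1 * f0 a + b1 * f1 a + c1 * dotProduct a p = dotProduct a p * -ζ
          linear_combination dotProduct a p * h1' - a1 * e0 - b1 * e1
        · show a2 * f0 a + b2 * f1 a + c2 * dotProduct a p = dotProduct a p * 0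
          linear_combination dotProduct a p * h2' - a2 * e0 - b2 * e1
        · show dotProduct a p = dotProduct a p * 1
          rw [mul_one]
      · have h1' : a1 * (f0 a / dotProduct a p) + b1 * (f1 a / dotProduct a p) + c1 = 0 := h1
        have h2' : a2 * (f0 a / dotProduct a p) + b2 * (f1 a / dotProduct a p) + c2 = -ζ := h2
        right
        right
        right
        right
        ext i
        fin_cases i
        · show a1 * f0 a + b1 * f1 a + c1 * dotProduct a p = dotProduct a p * 0
          linear_combination dotProduct a p * h1' - a1 * e0 - b1 * e1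
        · show a2 * f0 a + b2 * f1 a + c2 * dotProduct a p = dotProduct a p * -ζ
          linear_combination dotProduct a p * h2' - a2 * e0 - b2 * e1
        · show dotProduct a p = dotProduct a p * 1
          rw [mul_one]

end Pool.Agent.Lib.MP_70c3c6_co.OD
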