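import Pool.Agent.Lib.MP_70c3c6_co.OD.Spec

/-!
# HES: the equianharmonic condition
-/

set_option autoImplicit false
open Classical

namespace Pool.Agent.Lib.MP_70c3c6_co.OD

open Pool.Agent.Lib.MP_70c3c6_co.EQ

namespace HESM

lemma final {H K h2 a0 a1 a2 : ℂ} (hh : h2 = H + K) (ha : h2 * a2 = H * a0 + K * a1)
    (hne : a0 ≠ a1) (hq : a0 * a1 + a0 * a2 + a1 * a2 = a0 ^ 2 + a1 ^ 2 + a2 ^ 2) :
    H ^ 2 + H * K + K ^ 2 = 0 := by
  subst hh
  have h1 : (H + K) * (a2 - a0) = K * (a1 - a0) := by linear_combination ha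
  have h2 : (H + K) * (a2 - a1) = -H * (a1 - a0) := by linear_combination ha
  have h3 : (a1 - a0) ^ 2 + (a2 - a0) ^ 2 + (a2 - a1) ^ 2 = 0 := by linear_combination (-2) * hq
  have h4 : (a1 - a0) ^ 2 * (2 * (H ^ 2 + H * K + K ^ 2)) = 0 := by
    have e1 : ((H + K) * (a2 - a0)) ^ 2 = (K * (a1 - a0)) ^ 2 := by rw [h1]
    have e2 : ((H + K) * (a2 - a1)) ^ 2 = (-H * (a1 - a0)) ^ 2 := by rw [h2]
    linear_combination (H + K) ^ 2 * h3 - e1 - e2
  have h5 : a1 - a0 ≠ 0 := sub_ne_zero.mpr (Ne.symm hne)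
  rcases mul_eq_zero.mp h4 with h | h
  · exact absurd h (pow_ne_zero 2 h5)
  · rcases mul_eq_zero.mp h with h | h
    · norm_num at h
    · exact h

end HESM

open HESM in
/-- HES -/
theorem specHES (hREP : SpecREP) (hAFF : SpecAFF) : SpecHES := by
  intro P B D P' B' D' hT hT' hR u v huv
  obtain ⟨O, hO, hDO, hD'O, -, V, V', a, a', hP, hP'⟩ := hREP P B D P' B' D' hT hT' hR
  obtain ⟨hinj, -, hq, -, -⟩ := hAFF P B D P' B' D' hT hT' hR O V V' a a' hO hDO hD'O hP hP'
  have hh : ∀ i, dotProduct D' (P i) ≠ 0 := fun i => (hR i 0).1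
  -- `D' . V = 1`
  have hV : dotProduct D' V = 1 := by
    have h1 := congrArg (dotProduct D') (hP 0)
    rw [dotProduct_smul, dotProduct_add, dotProduct_smul, hD'O, smul_zero, add_zero,
      smul_eq_mul] at h1
    exact (mul_left_cancel₀ (hh 0) (by rw [mul_one]; exact h1)).symm
  have h2 : dotProduct D' (P 2) = u * dotProduct D' (P 0) + v * dotProduct D' (P 1) := by
    rw [huv, dotProduct_add, dotProduct_smul, dotProduct_smul, smul_eq_mul, smul_eq_mul]
  obtain ⟨k, hk⟩ : ∃ k, O k ≠ 0 := by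
    by_contra hcon
    push Not at hcon
    exact hO (funext hcon)
  have e : ∀ i, P i k = dotProduct D' (P i) * (V k + a i * O k) := by
    intro i
    have := congrFun (hP i) k
    simpa only [Pi.smul_apply, Pi.add_apply, smul_eq_mul] using this
  have e2 : P 2 k = u * P 0 k + v * P 1 k := by
    have := congrFun huv k
    simpa only [Pi.smul_apply, Pi.add_apply, smul_eq_mul] using this
  have h3 : dotProduct D' (P 2) * a 2 =
      (u * dotProduct D' (P 0)) * a 0 + (v * dotProduct D' (P 1)) * a 1 := by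
    apply mul_right_cancel₀ hk
    have e0' := e 0
    have e1' := e 1
    have e2' := e 2
    linear_combination e2 - e2' + u * e0' + v * e1' - V k * h2
  exact final h2 h3 (fun h => by simpa using hinj h) hq

end Pool.Agent.Lib.MP_70c3c6_co.OD
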