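import Pool.Agent.Lib.MP_70c3c6_co.OD.Spec

/-!
MP_70c3c6_co, OD: module NIN, nine points are impossible.
-/

set_option autoImplicit false
open Classical

namespace Pool.Agent.Lib.MP_70c3c6_co.OD

open Pool.Agent.Lib.MP_70c3c6_co.EQ

namespace NINM

/-- the three points of a triple -/
noncomputable def PP {ι : Type} (x y : ι → ℂ) (t : Fin 3 → ι) : Fin 3 → V3 :=
  ![pt x y (t 0), pt x y (t 1), pt x y (t 2)]

theorem PP_apply {ι : Type} (x y : ι → ℂ) (t : Fin 3 → ι) (j : Fin 3) :
    PP x y t j = pt x y (t j) := by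
  fin_cases j <;> rfl

/-- the direction of a chord -/
theorem chord_dir {ι : Type} {x y : ι → ℂ} (hx : Function.Injective x) {i j : ι} (hij : i ≠ j)
    {e : ℂ} (he : ms x y i j = e) :
    (![1, e, 0] : V3) = (-(1 / (x j - x i))) • pt x y i + (1 / (x j - x i)) • pt x y j := by
  have h : x j - x i ≠ 0 := sub_ne_zero.2 fun h => hij (hx h).symm
  subst he
  funext k
  fin_cases k
  · simp only [pt, Pi.add_apply, Pi.smul_apply, smul_eq_mul]
    simp
    field_simp
    ring
  · simp only [pt, Pi.add_apply, Pi.smul_apply, smul_eq_mul, ms]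
    simp
    field_simp
    ring
  · simp only [pt, Pi.add_apply, Pi.smul_apply, smul_eq_mul]
    simp

theorem ms_symm {ι : Type} (x y : ι → ℂ) (i j : ι) : ms x y i j = ms x y j i := by
  unfold ms
  rw [← neg_sub (y i) (y j), ← neg_sub (x i) (x j), neg_div_neg_eq]

/-- nine indices as three triples -/
theorem exists_triples {ι : Type} [Fintype ι] {x y τ : ι → ℂ} {E : Finset ℂ} (hTRP : SpecTRP)
    (S : Sys2 x y τ E) (h9 : Fintype.card ι = 9) :
    ∃ T : Fin 3 → Fin 3 → ι, (∀ a, Tr x y (T a 0) (T a 1) (T a 2)) ∧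
      ∀ a b c d, T a b = T c d → a = c := by
  obtain ⟨hsym, hex, huniq⟩ := hTRP ι x y τ E S
  choose jj ll hjl using hex
  let C : ι → Finset ι := fun i => {i, jj i, ll i}
  have hC3 : ∀ i, (C i).card ≤ 3 := fun i => Finset.card_le_three
  -- the relation of being in the same triple
  let R : ι → ι → Prop := fun i k => i = k ∨ ∃ l, Tr x y i k l
  have hRC : ∀ i k, R i k → k ∈ C i := by
    intro i k h
    rcases h with rfl | ⟨l, h⟩
    · simp [C]
    · rcases huniq i (jj i) (ll i) k l (hjl i) h with ⟨h1, -⟩ | ⟨h1, -⟩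
      · simp [C, h1]
      · simp [C, h1]
  have hCR : ∀ i k, k ∈ C i → R i k := by
    intro i k h
    simp only [C, Finset.mem_insert, Finset.mem_singleton] at h
    rcases h with rfl | rfl | rfl
    · exact Or.inl rfl
    · exact Or.inr ⟨_, hjl i⟩
    · exact Or.inr ⟨_, (hsym _ _ _ (hjl i)).1⟩
  have hRsymm : ∀ i k, R i k → R k i := by
    intro i k h
    rcases h with rfl | ⟨l, h⟩
    · exact Or.inl rfl
    · exact Or.inr ⟨l, (hsym _ _ _ h).2⟩
  have hRtrans : ∀ i k m, R i k → R k m → R i m := by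
    intro i k m h1 h2
    rcases h1 with rfl | ⟨l, h1⟩
    · exact h2
    · rcases h2 with rfl | ⟨n, h2⟩
      · exact Or.inr ⟨l, h1⟩
      · rcases huniq k i l m n (hsym _ _ _ h1).2 h2 with ⟨h3, -⟩ | ⟨h3, -⟩
        · exact Or.inl h3.symm
        · subst h3
          exact Or.inr ⟨k, (hsym _ _ _ h1).1⟩
  -- choice of the three representatives
  have hne : Nonempty ι := Fintype.card_pos_iff.1 (by omega)
  obtain ⟨i0⟩ := hne
  obtain ⟨i1, hi1⟩ : ∃ i1, i1 ∉ C i0 := by
    by_contra h
    have h1 : (Finset.univ : Finset ι) ⊆ C i0 := fun k _ => by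
      by_contra h2
      exact h ⟨k, h2⟩
    have h2 := Finset.card_le_card h1
    rw [Finset.card_univ, h9] at h2
    have := hC3 i0
    omega
  obtain ⟨i2, hi2⟩ : ∃ i2, i2 ∉ C i0 ∪ C i1 := by
    by_contra h
    have h1 : (Finset.univ : Finset ι) ⊆ C i0 ∪ C i1 := fun k _ => by
      by_contra h2
      exact h ⟨k, h2⟩
    have h2 := Finset.card_le_card h1
    rw [Finset.card_univ, h9] at h2
    have h3 := Finset.card_union_le (C i0) (C i1)
    have := hC3 i0
    have := hC3 i1
    omega
  rw [Finset.mem_union, not_or] at hi2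
  let r : Fin 3 → ι := ![i0, i1, i2]
  have hr : ∀ a c, R (r a) (r c) → a = c := by
    have h01 : ¬ R i0 i1 := fun h => hi1 (hRC _ _ h)
    have h02 : ¬ R i0 i2 := fun h => hi2.1 (hRC _ _ h)
    have h12 : ¬ R i1 i2 := fun h => hi2.2 (hRC _ _ h)
    intro a c h
    fin_cases a <;> fin_cases c
    · rfl
    · exact absurd h h01
    · exact absurd h h02
    · exact absurd (hRsymm _ _ h) h01
    · rfl
    · exact absurd h h12
    · exact absurd (hRsymm _ _ h) h02
    · exact absurd (hRsymm _ _ h) h12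
    · rfl
  refine ⟨fun a => ![r a, jj (r a), ll (r a)], fun a => hjl (r a), ?_⟩
  have hin : ∀ a b, R (r a) ((![r a, jj (r a), ll (r a)] : Fin 3 → ι) b) := by
    intro a b
    refine hCR _ _ ?_
    fin_cases b <;> simp [C]
  intro a b c d h
  refine hr a c (hRtrans _ _ _ (hin a b) ?_)
  have h1 : R (r c) ((![r a, jj (r a), ll (r a)] : Fin 3 → ι) b) := by
    change (![r a, jj (r a), ll (r a)] : Fin 3 → ι) b = ![r c, jj (r c), ll (r c)] d at h
    rw [h]
    exact hin c d
  exact hRsymm _ _ h1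

end NINM

open NINM in
theorem specNIN (hTRP : SpecTRP) (hVEC : SpecVEC) (hTRI : SpecTRI) : SpecNIN := by
  intro ι _ x y τ E S h9
  obtain ⟨T, hT, hTne⟩ := exists_triples hTRP S h9
  obtain ⟨hsym, -, huniq⟩ := hTRP ι x y τ E S
  obtain ⟨g, d, hTT, hRR⟩ := hVEC ι x y τ E S
  -- the triple of each point
  have htr : ∀ a b, ∃ b' b'', Tr x y (T a b) (T a b') (T a b'') := by
    intro a b
    have h0 := hT a
    fin_cases b
    · exact ⟨1, 2, h0⟩
    · exact ⟨0, 2, (hsym _ _ _ h0).2⟩
    · exact ⟨0, 1, (hsym _ _ _ (hsym _ _ _ h0).1).2⟩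
  -- injectivity inside a triple
  have hinj : ∀ a b b', T a b = T a b' → b = b' := by
    intro a b b' h
    obtain ⟨h1, h2, h3, -⟩ := hT a
    fin_cases b <;> fin_cases b' <;>
      first
      | rfl
      | exact absurd h h1
      | exact absurd h h2
      | exact absurd h h3
      | exact absurd h.symm h1
      | exact absurd h.symm h2
      | exact absurd h.symm h3
  -- a point has at most one partner
  have hone : ∀ a b c dd c' dd', a ≠ c → a ≠ c' →
      ms x y (T a b) (T c dd) = ms x y (T a b) (T c' dd') → T c dd = T c' dd' := by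
    intro a b c dd c' dd' hac hac' h
    by_contra hne
    obtain ⟨b', b'', hb⟩ := htr a b
    have h1 : Tr x y (T a b) (T c dd) (T c' dd') :=
      ⟨fun h2 => hac (hTne _ _ _ _ h2).symm, fun h2 => hac' (hTne _ _ _ _ h2).symm, hne, h⟩
    rcases huniq _ _ _ _ _ hb h1 with ⟨h2, -⟩ | ⟨h2, -⟩
    · exact hac (hTne _ _ _ _ h2).symm
    · exact hac (hTne _ _ _ _ h2).symm
  have hne' : ∀ a b c dd, a ≠ c → T a b ≠ T c dd := fun a b c dd h h' => h (hTne _ _ _ _ h')
  -- the matched points for a slope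
  let V : ℂ → Finset (Fin 3 × Fin 3) := fun e =>
    Finset.univ.filter fun p => ∃ q : Fin 3 × Fin 3, p.1 ≠ q.1 ∧ ms x y (T p.1 p.2) (T q.1 q.2) = e
  have hV : ∀ e, (V e).card ≤ 6 := by
    intro e
    by_contra hcon
    have hU : (Finset.univ \ V e).card ≤ 2 := by
      rw [Finset.card_sdiff_of_subset (Finset.subset_univ _)]
      have : (Finset.univ : Finset (Fin 3 × Fin 3)).card = 9 := by decide
      omega
    -- a triple without unmatched points
    obtain ⟨a, ha⟩ : ∃ a, ∀ b, (a, b) ∈ V e := by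
      by_contra hno
      have h1 : ∀ a, ∃ b, (a, b) ∉ V e := by
        intro a
        by_contra h2
        exact hno ⟨a, fun b => by
          by_contra h3
          exact h2 ⟨b, h3⟩⟩
      choose f hf using h1
      have h2 : (Finset.univ : Finset (Fin 3)).card ≤ (Finset.univ \ V e).card := by
        refine Finset.card_le_card_of_injOn (fun a => (a, f a)) ?_ ?_
        · intro a _
          exact Finset.mem_sdiff.2 ⟨Finset.mem_univ _, hf a⟩
        · intro a _ a' _ h
          exact congrArg Prod.fst h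
      rw [Finset.card_univ, Fintype.card_fin] at h2
      omega
    have ha' : ∀ b, ∃ c dd, a ≠ c ∧ ms x y (T a b) (T c dd) = e := by
      intro b
      obtain ⟨q, hq1, hq2⟩ := (Finset.mem_filter.1 (ha b)).2
      exact ⟨q.1, q.2, hq1, hq2⟩
    choose c dd hc hcd using ha'
    -- different points have different partners
    have hpart : ∀ b b', T (c b) (dd b) = T (c b') (dd b') → b = b' := by
      intro b b' h
      refine hinj a b b' ?_
      refine hone (c b) (dd b) a b a b' (hc b).symm (hc b).symm ?_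
      rw [ms_symm, hcd b, ms_symm, h, hcd b']
    by_cases hsame : c 0 = c 1 ∧ c 1 = c 2
    · -- all partners in one triple
      have hall : ∀ b, c b = c 0 := by
        intro b
        fin_cases b
        · rfl
        · exact hsame.1.symm
        · exact (hsame.1.trans hsame.2).symm
      have hdinj : Function.Injective dd := by
        intro b b' h
        refine hpart b b' ?_
        rw [hall b, hall b', h]
      have hdsurj : Function.Surjective dd := Finite.surjective_of_injective hdinj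
      obtain ⟨a', ha'1, ha'2⟩ : ∃ a' : Fin 3, a' ≠ a ∧ a' ≠ c 0 := by
        have : ∀ u v : Fin 3, ∃ w : Fin 3, w ≠ u ∧ w ≠ v := by decide
        exact this a (c 0)
      have hno : ∀ b', (a', b') ∉ V e := by
        intro b' hb'
        obtain ⟨q, hq1, hq2⟩ := (Finset.mem_filter.1 hb').2
        change a' ≠ q.1 at hq1
        change ms x y (T a' b') (T q.1 q.2) = e at hq2
        have hq : q.1 = a ∨ q.1 = c 0 := by
          have : ∀ u v w z : Fin 3, u ≠ v → w ≠ u → w ≠ v → w ≠ z → z = u ∨ z = v := by decide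
          exact this a (c 0) a' q.1 (hc 0) ha'1 ha'2 hq1
        rcases hq with hq | hq
        · rw [hq] at hq2
          have h1 := hone a q.2 a' b' (c q.2) (dd q.2) ha'1.symm (hc q.2)
            (by rw [ms_symm, hq2, hcd])
          exact ha'2 ((hTne _ _ _ _ h1).trans (hall _))
        · obtain ⟨b, hb⟩ := hdsurj q.2
          rw [hq, ← hb] at hq2
          have h1 := hone (c 0) (dd b) a' b' a b ha'2.symm (hc 0).symm
            (by rw [ms_symm, hq2, ms_symm, ← hall b, hcd])
          exact ha'1 (hTne _ _ _ _ h1)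
      have h2 : (Finset.univ : Finset (Fin 3)).card ≤ (Finset.univ \ V e).card := by
        refine Finset.card_le_card_of_injOn (fun b => (a', b)) ?_ ?_
        · intro b _
          exact Finset.mem_sdiff.2 ⟨Finset.mem_univ _, hno b⟩
        · intro b _ b' _ h
          exact congrArg Prod.snd h
      rw [Finset.card_univ, Fintype.card_fin] at h2
      omega
    · -- a two-one split
      obtain ⟨j1, j2, j3, h12, h13, h23, hcc, hcc'⟩ : ∃ j1 j2 j3 : Fin 3, j1 ≠ j2 ∧ j1 ≠ j3 ∧
          j2 ≠ j3 ∧ c j1 = c j2 ∧ c j1 ≠ c j3 := by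
        have key : ∀ u v w z : Fin 3, u ≠ v → u ≠ w → u ≠ z → ¬ (v = w ∧ w = z) →
            (v = w ∧ v ≠ z) ∨ (v = z ∧ v ≠ w) ∨ (w = z ∧ w ≠ v) := by decide
        rcases key a (c 0) (c 1) (c 2) (hc 0) (hc 1) (hc 2) hsame with h | h | h
        · exact ⟨0, 1, 2, by decide, by decide, by decide, h.1, h.2⟩
        · exact ⟨0, 2, 1, by decide, by decide, by decide, h.1, h.2⟩
        · exact ⟨1, 2, 0, by decide, by decide, by decide, h.1, h.2⟩
      -- the triples `T (c j3)`, `T a`, `T (c j1)`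
      have hX : (![1, e, 0] : V3) ≠ 0 := by
        intro h
        have := congrFun h 0
        simp at this
      have hk : dd j1 ≠ dd j2 := by
        intro h
        exact h12 (hpart j1 j2 (by rw [hcc, h]))
      have e1 : (![1, e, 0] : V3) = (-(1 / (x (T (c j1) (dd j1)) - x (T a j1)))) •
          PP x y (T a) j1 + (1 / (x (T (c j1) (dd j1)) - x (T a j1))) •
          PP x y (T (c j1)) (dd j1) := by
        rw [PP_apply, PP_apply]
        exact chord_dir S.inj (hne' _ _ _ _ (hc j1)) (hcd j1)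
      have e2 : (![1, e, 0] : V3) = (-(1 / (x (T (c j2) (dd j2)) - x (T a j2)))) •
          PP x y (T a) j2 + (1 / (x (T (c j2) (dd j2)) - x (T a j2))) •
          PP x y (T (c j1)) (dd j2) := by
        rw [PP_apply, PP_apply, hcc]
        exact chord_dir S.inj (hne' _ _ _ _ (hc j2)) (hcd j2)
      have e3 : (![1, e, 0] : V3) = (-(1 / (x (T (c j3) (dd j3)) - x (T a j3)))) •
          PP x y (T a) j3 + (1 / (x (T (c j3) (dd j3)) - x (T a j3))) •
          PP x y (T (c j3)) (dd j3) := by
        rw [PP_apply, PP_apply]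
        exact chord_dir S.inj (hne' _ _ _ _ (hc j3)) (hcd j3)
      exact hTRI _ _ _ _ _ _ _ _ _ (hTT _ _ _ (hT (c j3))) (hTT _ _ _ (hT a))
        (hTT _ _ _ (hT (c j1)))
        (hRR _ _ _ _ _ _ (hT (c j3)) (hT a) (hne' _ _ _ _ (hc j3)) (hne' _ _ _ _ (hc j3))
          (hne' _ _ _ _ (hc j3)))
        (hRR _ _ _ _ _ _ (hT (c j3)) (hT (c j1)) (hne' _ _ _ _ hcc') (hne' _ _ _ _ hcc')
          (hne' _ _ _ _ hcc'))
        (hRR _ _ _ _ _ _ (hT a) (hT (c j1)) (hne' _ _ _ _ (hc j1).symm)
          (hne' _ _ _ _ (hc j1).symm) (hne' _ _ _ _ (hc j1).symm))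
        ![1, e, 0] (dd j3) j1 j2 j3 (dd j1) (dd j2) _ _ _ _ _ _ hX h12 h13 h23 hk
        e1 e2 e3
  -- counting
  have hcount : ((Finset.univ : Finset ((Fin 3 × Fin 3) × (Fin 3 × Fin 3))).filter
      fun z => z.1.1 ≠ z.2.1).card ≤ 6 * E.card := by
    refine Finset.card_le_mul_card_image_of_maps_to
      (f := fun z => ms x y (T z.1.1 z.1.2) (T z.2.1 z.2.2)) ?_ 6 ?_
    · intro z hz
      exact S.chord _ _ (hne' _ _ _ _ (Finset.mem_filter.1 hz).2)
    · intro e _
      refine le_trans ?_ (hV e)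
      refine Finset.card_le_card_of_injOn Prod.fst ?_ ?_
      · intro z hz
        have hz' := Finset.mem_filter.1 (Finset.mem_coe.1 hz)
        exact Finset.mem_filter.2 ⟨Finset.mem_univ _, z.2, (Finset.mem_filter.1 hz'.1).2, hz'.2⟩
      · intro z hz z' hz' h
        have hz1 := Finset.mem_filter.1 (Finset.mem_coe.1 hz)
        have hz2 := Finset.mem_filter.1 (Finset.mem_coe.1 hz')
        have h1 := (Finset.mem_filter.1 hz1.1).2
        have h2 := (Finset.mem_filter.1 hz2.1).2
        obtain ⟨⟨a, b⟩, ⟨c, dd⟩⟩ := z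
        obtain ⟨⟨a', b'⟩, ⟨c', dd'⟩⟩ := z'
        obtain ⟨rfl, rfl⟩ := Prod.mk.inj h
        have h3 : T c dd = T c' dd' := hone a b c dd c' dd' h1 h2 (hz1.2.trans hz2.2.symm)
        have h4 := hTne _ _ _ _ h3
        subst h4
        rw [hinj _ _ _ h3]
  have h54 : ((Finset.univ : Finset ((Fin 3 × Fin 3) × (Fin 3 × Fin 3))).filter
      fun z => z.1.1 ≠ z.2.1).card = 54 := by decide
  have h8 := S.card
  rw [h54] at hcount
  omega

end Pool.Agent.Lib.MP_70c3c6_co.OD
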