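import Pool.Agent.Lib.MP_70c3c6_co.OD.Spec

/-!
# Module REP: coordinates on two triples
-/

set_option autoImplicit false
open Classical

namespace Pool.Agent.Lib.MP_70c3c6_co.OD

open Pool.Agent.Lib.MP_70c3c6_co.EQ

namespace REPM

/-- Vectors killed by `D` and `D'` are multiples of `O = (D'.p1) p0 - (D'.p0) p1`. -/
theorem kernel (p0 p1 q : V3) (D D' : V3)
    (hind : ∀ c0 c1 : ℂ, c0 • p0 + c1 • p1 = 0 → c0 = 0 ∧ c1 = 0)
    (hD0 : dotProduct D p0 = 0) (hD1 : dotProduct D p1 = 0) (hq : dotProduct D q ≠ 0)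
    (h1 : dotProduct D' p1 ≠ 0) (w : V3) (hw : dotProduct D w = 0)
    (hw' : dotProduct D' w = 0) :
    ∃ c : ℂ, w = c • (dotProduct D' p1 • p0 - dotProduct D' p0 • p1) := by
  have hli : LinearIndependent ℂ ![p0, p1, q] := by
    rw [Fintype.linearIndependent_iff]
    intro g hg
    rw [Fin.sum_univ_three] at hg
    simp only [Matrix.cons_val_zero, Matrix.cons_val_one, Matrix.cons_val] at hg
    have h2 : g 2 = 0 := by
      have h3 := congrArg (dotProduct D) hg
      rw [dotProduct_add, dotProduct_add, dotProduct_smul, dotProduct_smul, dotProduct_smul,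
        hD0, hD1, dotProduct_zero, smul_zero, smul_zero, zero_add, zero_add, smul_eq_mul] at h3
      exact (mul_eq_zero.mp h3).resolve_right hq
    rw [h2, zero_smul, add_zero] at hg
    obtain ⟨h4, h5⟩ := hind _ _ hg
    intro i
    fin_cases i
    · exact h4
    · exact h5
    · exact h2
  have hspan := hli.span_eq_top_of_card_eq_finrank' (by simp)
  have hmem : w ∈ Submodule.span ℂ (Set.range ![p0, p1, q]) := by
    rw [hspan]
    exact Submodule.mem_top
  rw [Submodule.mem_span_range_iff_exists_fun] at hmem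
  obtain ⟨c, hc⟩ := hmem
  rw [Fin.sum_univ_three] at hc
  simp only [Matrix.cons_val_zero, Matrix.cons_val_one, Matrix.cons_val] at hc
  have h2 : c 2 = 0 := by
    have h3 := congrArg (dotProduct D) hc
    rw [dotProduct_add, dotProduct_add, dotProduct_smul, dotProduct_smul, dotProduct_smul,
      hD0, hD1, hw, smul_zero, smul_zero, zero_add, zero_add, smul_eq_mul] at h3
    exact (mul_eq_zero.mp h3).resolve_right hq
  rw [h2, zero_smul, add_zero] at hc
  have h6 : c 0 * dotProduct D' p0 + c 1 * dotProduct D' p1 = 0 := by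
    have h3 := congrArg (dotProduct D') hc
    rw [dotProduct_add, dotProduct_smul, dotProduct_smul, hw', smul_eq_mul, smul_eq_mul] at h3
    exact h3
  refine ⟨c 0 / dotProduct D' p1, ?_⟩
  rw [smul_sub, smul_smul, smul_smul, div_mul_cancel₀ _ h1, ← hc, sub_eq_add_neg, ← neg_smul]
  congr 2
  field_simp
  linear_combination h6

end REPM

theorem specREP : SpecREP := by
  intro P B D P' B' D' hT hT' hR
  have hk := REPM.kernel (P 0) (P 1) (P' 0) D D' hT.ind (hT.DP 0) (hT.DP 1) (hR 0 0).2.1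
    (hR 1 0).1
  refine ⟨dotProduct D' (P 1) • P 0 - dotProduct D' (P 0) • P 1, ?_, ?_, ?_, hk,
    (dotProduct D' (P 0))⁻¹ • P 0, (dotProduct D (P' 0))⁻¹ • P' 0, ?_⟩
  · intro h
    rw [sub_eq_add_neg, ← neg_smul] at h
    exact (hR 1 0).1 (hT.ind _ _ h).1
  · rw [dotProduct_sub, dotProduct_smul, dotProduct_smul, hT.DP, hT.DP]
    simp
  · rw [dotProduct_sub, dotProduct_smul, dotProduct_smul, smul_eq_mul, smul_eq_mul]
    ring
  · have h1 : ∀ i, ∃ a : ℂ, P i = dotProduct D' (P i) • ((dotProduct D' (P 0))⁻¹ • P 0 +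
        a • (dotProduct D' (P 1) • P 0 - dotProduct D' (P 0) • P 1)) := by
      intro i
      obtain ⟨a, ha⟩ := hk ((dotProduct D' (P i))⁻¹ • P i - (dotProduct D' (P 0))⁻¹ • P 0)
        (by rw [dotProduct_sub, dotProduct_smul, dotProduct_smul, hT.DP, hT.DP]; simp)
        (by
          rw [dotProduct_sub, dotProduct_smul, dotProduct_smul, smul_eq_mul, smul_eq_mul,
            inv_mul_cancel₀ (hR i 0).1, inv_mul_cancel₀ (hR 0 0).1, sub_self])
      refine ⟨a, ?_⟩
      rw [← ha, add_sub_cancel, smul_smul, mul_inv_cancel₀ (hR i 0).1, one_smul]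
    have h2 : ∀ j, ∃ a : ℂ, P' j = dotProduct D (P' j) • ((dotProduct D (P' 0))⁻¹ • P' 0 +
        a • (dotProduct D' (P 1) • P 0 - dotProduct D' (P 0) • P 1)) := by
      intro j
      obtain ⟨a, ha⟩ := hk ((dotProduct D (P' j))⁻¹ • P' j - (dotProduct D (P' 0))⁻¹ • P' 0)
        (by
          rw [dotProduct_sub, dotProduct_smul, dotProduct_smul, smul_eq_mul, smul_eq_mul,
            inv_mul_cancel₀ (hR 0 j).2.1, inv_mul_cancel₀ (hR 0 0).2.1, sub_self])
        (by rw [dotProduct_sub, dotProduct_smul, dotProduct_smul, hT'.DP, hT'.DP]; simp)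
      refine ⟨a, ?_⟩
      rw [← ha, add_sub_cancel, smul_smul, mul_inv_cancel₀ (hR 0 j).2.1, one_smul]
    choose a ha using h1
    choose a' ha' using h2
    exact ⟨a, a', ha, ha'⟩

end Pool.Agent.Lib.MP_70c3c6_co.OD
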