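import Pool.Agent.Lib.MP_70c3c6_co.OD.Spec

/-!
# SFN: six points
-/

set_option autoImplicit false
open Classical Pointwise

namespace Pool.Agent.Lib.MP_70c3c6_co.OD

open Pool.Agent.Lib.MP_70c3c6_co.EQ

namespace SFNM

lemma ms_comm {ι : Type} (x y : ι → ℂ) (i j : ι) : ms x y i j = ms x y j i := by
  unfold ms
  rw [← neg_sub (y i) (y j), ← neg_sub (x i) (x j), neg_div_neg_eq]

lemma ms_mul {ι : Type} {x : ι → ℂ} (y : ι → ℂ) (hx : Function.Injective x) {i j : ι}
    (h : i ≠ j) : ms x y i j * (x j - x i) = y j - y i := by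
  unfold ms
  exact div_mul_cancel₀ _ (sub_ne_zero.mpr (fun e => h (hx e).symm))

lemma ms_eq {ι : Type} {x y : ι → ℂ} (hx : Function.Injective x) {i j : ι} (h : i ≠ j) {d : ℂ}
    (hd : y j - y i = d * (x j - x i)) : ms x y i j = d := by
  have h1 : x j - x i ≠ 0 := sub_ne_zero.mpr (fun e => h (hx e).symm)
  unfold ms
  rw [hd]
  exact mul_div_cancel_right₀ _ h1

lemma prod3 {F : Finset ℂ} (hF : F.card = 3) {a b c : ℂ} (ha : a ∈ F) (hb : b ∈ F) (hc : c ∈ F)
    (hab : a ≠ b) (hac : a ≠ c) (hbc : b ≠ c) :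
    F = {a, b, c} ∧ ∀ φ : ℂ → ℂ, ∏ e ∈ F, φ e = φ a * φ b * φ c := by
  have h3 : ({a, b, c} : Finset ℂ).card = 3 := Finset.card_eq_three.mpr ⟨a, b, c, hab, hac, hbc, rfl⟩
  have hsub : ({a, b, c} : Finset ℂ) ⊆ F := by
    intro z hz
    simp only [Finset.mem_insert, Finset.mem_singleton] at hz
    rcases hz with rfl | rfl | rfl <;> assumption
  have heq : F = {a, b, c} := (Finset.eq_of_subset_of_card_le hsub (by rw [hF, h3])).symm
  refine ⟨heq, fun φ => ?_⟩
  rw [heq, Finset.prod_insert (by simp [hab, hac]), Finset.prod_insert (by simp [hbc]),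
    Finset.prod_singleton, mul_assoc]

variable {ι : Type} [Fintype ι] {x y τ : ι → ℂ} {E : Finset ℂ}

/-- the facts on a triple -/
structure Trip (x y : ι → ℂ) (E : Finset ℂ) (T : Finset ι) (i0 i1 i2 : ι) (d : ℂ) : Prop where
  eq : T = {i0, i1, i2}
  card : T.card = 3
  n01 : i0 ≠ i1
  n02 : i0 ≠ i2
  n12 : i1 ≠ i2
  dE : d ∈ E
  line : ∀ i ∈ T, ∀ j ∈ T, y j - y i = d * (x j - x i)
  out : ∀ i ∈ T, ∀ j ∉ T, ms x y i j ≠ d
  sep : ∀ i ∈ T, ∀ j ∉ T, ∀ j' ∉ T, j ≠ j' → ms x y i j ≠ ms x y i j'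

lemma trip (hTRP : SpecTRP) (hS : Sys2 x y τ E) {i0 i1 i2 : ι} (h : Tr x y i0 i1 i2) :
    ∃ d, Trip x y E {i0, i1, i2} i0 i1 i2 d := by
  obtain ⟨hsym, -, huni⟩ := hTRP ι x y τ E hS
  have hx := hS.inj
  have h10 : i1 ≠ i0 := h.1
  have h20 : i2 ≠ i0 := h.2.1
  have h12 : i1 ≠ i2 := h.2.2.1
  have he1 : ms x y i0 i1 = ms x y i0 i2 := h.2.2.2
  have hb := (hsym _ _ _ h).2
  have hc := (hsym _ _ _ (hsym _ _ _ h).1).2
  have he2 : ms x y i1 i0 = ms x y i1 i2 := hb.2.2.2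
  -- for every point of the triple, the triple of this point
  have htr : ∀ i ∈ ({i0, i1, i2} : Finset ι), ∃ a ∈ ({i0, i1, i2} : Finset ι),
      ∃ b ∈ ({i0, i1, i2} : Finset ι), Tr x y i a b ∧ ms x y i a = ms x y i0 i1 := by
    intro i hi
    simp only [Finset.mem_insert, Finset.mem_singleton] at hi
    rcases hi with rfl | rfl | rfl
    · exact ⟨i1, by simp, i2, by simp, h, rfl⟩
    · exact ⟨i0, by simp, i2, by simp, hb, ms_comm x y _ _⟩
    · exact ⟨i0, by simp, i1, by simp, hc, by rw [ms_comm x y i i0, he1]⟩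
  refine ⟨ms x y i0 i1, ?_⟩
  refine ⟨rfl, Finset.card_eq_three.mpr ⟨i0, i1, i2, h10.symm, h20.symm, h12, rfl⟩, h10.symm,
    h20.symm, h12, hS.chord i0 i1 h10.symm, ?_, ?_, ?_⟩
  · have l01 : y i1 - y i0 = ms x y i0 i1 * (x i1 - x i0) := (ms_mul y hx h10.symm).symm
    have l02 : y i2 - y i0 = ms x y i0 i1 * (x i2 - x i0) := by
      rw [he1]; exact (ms_mul y hx h20.symm).symm
    have key : ∀ i ∈ ({i0, i1, i2} : Finset ι), y i - y i0 = ms x y i0 i1 * (x i - x i0) := by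
      intro i hi
      simp only [Finset.mem_insert, Finset.mem_singleton] at hi
      rcases hi with rfl | rfl | rfl
      · ring
      · exact l01
      · exact l02
    intro i hi j hj
    linear_combination key j hj - key i hi
  · intro i hi j hj hcon
    obtain ⟨a, ha, b, hb', ht, hd⟩ := htr i hi
    have hji : j ≠ i := fun e => hj (e ▸ hi)
    have hja : j ≠ a := fun e => hj (e ▸ ha)
    have h3 : Tr x y i j a := ⟨hji, ht.1, hja, by rw [hcon, hd]⟩
    rcases huni i a b j a ht h3 with ⟨e1, -⟩ | ⟨e1, -⟩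
    · exact hja e1
    · exact hj (e1 ▸ hb')
  · intro i hi j hj j' hj' hne hcon
    obtain ⟨a, ha, b, hb', ht, hd⟩ := htr i hi
    have hji : j ≠ i := fun e => hj (e ▸ hi)
    have hji' : j' ≠ i := fun e => hj' (e ▸ hi)
    have h3 : Tr x y i j j' := ⟨hji, hji', hne, hcon⟩
    rcases huni i a b j j' ht h3 with ⟨e1, -⟩ | ⟨e1, -⟩
    · exact hj (e1 ▸ ha)
    · exact hj (e1 ▸ hb')

/-- the two triples -/
lemma two (hTRP : SpecTRP) (hS : Sys2 x y τ E) (h6 : Fintype.card ι = 6) :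
    ∃ (T T' : Finset ι) (i0 i1 i2 i3 i4 i5 : ι) (d d' : ℂ), Trip x y E T i0 i1 i2 d ∧
      Trip x y E T' i3 i4 i5 d' ∧ Disjoint T T' ∧ ∀ i, i ∈ T ∨ i ∈ T' := by
  obtain ⟨hsym, hex, huni⟩ := hTRP ι x y τ E hS
  have hne : Nonempty ι := Fintype.card_pos_iff.mp (by omega)
  obtain ⟨i0⟩ := hne
  obtain ⟨i1, i2, h0⟩ := hex i0
  obtain ⟨d, ht⟩ := trip hTRP hS h0
  obtain ⟨i3, hi3⟩ : ∃ i3, i3 ∉ ({i0, i1, i2} : Finset ι) := by
    by_contra hcon
    push Not at hcon
    have h1 : ({i0, i1, i2} : Finset ι) = Finset.univ := Finset.eq_univ_iff_forall.mpr hcon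
    have h2 := ht.card
    rw [h1, Finset.card_univ, h6] at h2
    omega
  obtain ⟨i4, i5, h3⟩ := hex i3
  obtain ⟨d', ht'⟩ := trip hTRP hS h3
  -- no point of the second triple is in the first
  have key : ∀ a b, Tr x y i3 a b → a ∉ ({i0, i1, i2} : Finset ι) := by
    intro a b hab ha
    have h4 := (hsym _ _ _ hab).2
    -- `Tr a i3 b`
    by_cases hb : b ∈ ({i0, i1, i2} : Finset ι)
    · have h5 : ms x y a b = d := ms_eq hS.inj h4.2.1.symm (ht.line a ha b hb)
      exact ht.out a ha i3 hi3 (by rw [h4.2.2.2, h5])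
    · exact ht.sep a ha i3 hi3 b hb h4.2.2.1 h4.2.2.2
  have h4 : i4 ∉ ({i0, i1, i2} : Finset ι) := key i4 i5 h3
  have h5 : i5 ∉ ({i0, i1, i2} : Finset ι) := key i5 i4 (hsym _ _ _ h3).1
  have hdisj : Disjoint ({i0, i1, i2} : Finset ι) {i3, i4, i5} := by
    rw [Finset.disjoint_right]
    intro z hz
    simp only [Finset.mem_insert, Finset.mem_singleton] at hz
    rcases hz with rfl | rfl | rfl <;> assumption
  refine ⟨{i0, i1, i2}, {i3, i4, i5}, i0, i1, i2, i3, i4, i5, d, d', ht, ht', hdisj, ?_⟩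
  have hcard : (({i0, i1, i2} : Finset ι) ∪ {i3, i4, i5}).card = 6 := by
    rw [Finset.card_union_of_disjoint hdisj, ht.card, ht'.card]
  have huniv : ({i0, i1, i2} : Finset ι) ∪ {i3, i4, i5} = Finset.univ :=
    (Finset.card_eq_iff_eq_univ _).mp (by rw [hcard, h6])
  intro i
  have : i ∈ ({i0, i1, i2} : Finset ι) ∪ {i3, i4, i5} := by rw [huniv]; exact Finset.mem_univ i
  exact Finset.mem_union.mp this

/-- the parallel case is impossible -/
lemma parallel (hS : Sys2 x y τ E) (h6 : Fintype.card ι = 6) {T T' : Finset ι}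
    {i0 i1 i2 i3 i4 i5 : ι} {d : ℂ} (ht : Trip x y E T i0 i1 i2 d)
    (ht' : Trip x y E T' i3 i4 i5 d) (hdisj : Disjoint T T') : False := by
  have hx := hS.inj
  have hcardE : (E.erase d).card = 4 := by
    rw [Finset.card_erase_of_mem ht.dE]
    have := hS.card
    omega
  have m0 : i0 ∈ T := by rw [ht.eq]; simp
  have m3 : i3 ∈ T' := by rw [ht'.eq]; simp
  have hnot : ∀ j ∈ T', j ∉ T := fun j hj h => Finset.disjoint_left.mp hdisj h hj
  set c : ℂ := (y i3 - d * x i3) - (y i0 - d * x i0) with hc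
  set A : Finset ℂ := T'.image x with hA
  set B : Finset ℂ := T.image (fun i => - x i) with hB
  have hAc : A.card = 3 := by
    rw [hA, Finset.card_image_of_injective _ hx, ht'.card]
  have hBc : B.card = 3 := by
    rw [hB, Finset.card_image_of_injective _ (fun a b h => hx (neg_injective h)), ht.card]
  have hsub : A + B ⊆ (E.erase d).image (fun e => c / (e - d)) := by
    intro z hz
    obtain ⟨p, hp, q, hq, rfl⟩ := Finset.mem_add.mp hz
    obtain ⟨j, hj, rfl⟩ := Finset.mem_image.mp hp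
    obtain ⟨i, hi, rfl⟩ := Finset.mem_image.mp hq
    have hij : i ≠ j := fun e => hnot j hj (e ▸ hi)
    have hout := ht.out i hi j (hnot j hj)
    refine Finset.mem_image.mpr ⟨ms x y i j,
      Finset.mem_erase.mpr ⟨hout, hS.chord i j hij⟩, ?_⟩
    have h1 := ms_mul y hx hij
    have h2 := ht.line i0 m0 i hi
    have h3 := ht'.line i3 m3 j hj
    have h4 : ms x y i j - d ≠ 0 := sub_ne_zero.mpr hout
    rw [div_eq_iff h4]
    linear_combination hc - h1 + h2 - h3
  have hcd := cauchy_davenport_of_isAddTorsionFree (s := A) (t := B)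
    (Finset.card_pos.mp (by omega)) (Finset.card_pos.mp (by omega))
  have h1 := Finset.card_le_card hsub
  have h2 : ((E.erase d).image (fun e => c / (e - d))).card ≤ 4 := by
    rw [← hcardE]; exact Finset.card_image_le
  omega

end SFNM

open SFNM in
/-- SFN -/
theorem specSFN (hTRP : SpecTRP) : SpecSFN := by
  intro ι _ x y τ E hS h6
  obtain ⟨T, T', i0, i1, i2, i3, i4, i5, d, d', ht, ht', hdisj, hall⟩ := two hTRP hS h6
  have hx := hS.inj
  by_cases hdd : d = d'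
  · subst hdd
    exact (parallel hS h6 ht ht' hdisj).elim
  have m0 : i0 ∈ T := by rw [ht.eq]; simp
  have m1 : i1 ∈ T := by rw [ht.eq]; simp
  have m2 : i2 ∈ T := by rw [ht.eq]; simp
  have m3 : i3 ∈ T' := by rw [ht'.eq]; simp
  have m4 : i4 ∈ T' := by rw [ht'.eq]; simp
  have m5 : i5 ∈ T' := by rw [ht'.eq]; simp
  have hnot : ∀ j ∈ T', j ∉ T := fun j hj h => Finset.disjoint_left.mp hdisj h hj
  have hnot' : ∀ i ∈ T, i ∉ T' := fun i hi h => Finset.disjoint_left.mp hdisj hi h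
  set F : Finset ℂ := (E.erase d).erase d' with hF
  have hFc : F.card = 3 := by
    rw [hF, Finset.card_erase_of_mem (Finset.mem_erase.mpr ⟨Ne.symm hdd, ht'.dE⟩),
      Finset.card_erase_of_mem ht.dE]
    have := hS.card
    omega
  have hne : ∀ i ∈ T, ∀ j ∈ T', i ≠ j := fun i hi j hj e => hnot j hj (e ▸ hi)
  have hmemF : ∀ i ∈ T, ∀ j ∈ T', ms x y i j ∈ F := by
    intro i hi j hj
    refine Finset.mem_erase.mpr ⟨?_, Finset.mem_erase.mpr ⟨ht.out i hi j (hnot j hj),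
      hS.chord i j (hne i hi j hj)⟩⟩
    rw [ms_comm]
    exact ht'.out j hj i (hnot' i hi)
  -- the forms
  set u : ι → ℂ := fun i => (y i - d' * x i) - (y i3 - d' * x i3) with hu
  set v : ι → ℂ := fun i => (y i - d * x i) - (y i0 - d * x i0) with hv
  have hu0 : ∀ j ∈ T', u j = 0 := by
    intro j hj
    have := ht'.line i3 m3 j hj
    simp only [hu]
    linear_combination this
  have hv0 : ∀ i ∈ T, v i = 0 := by
    intro i hi
    have := ht.line i0 m0 i hi
    simp only [hv]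
    linear_combination this
  have hui : ∀ i ∈ T, ∀ j ∈ T', u i = -((x j - x i) * (ms x y i j - d')) := by
    intro i hi j hj
    have h1 := ms_mul y hx (hne i hi j hj)
    have h2 := hu0 j hj
    simp only [hu] at h2 ⊢
    linear_combination h2 + h1
  have hvj : ∀ i ∈ T, ∀ j ∈ T', v j = (x j - x i) * (ms x y i j - d) := by
    intro i hi j hj
    have h1 := ms_mul y hx (hne i hi j hj)
    have h2 := hv0 i hi
    simp only [hv] at h2 ⊢
    linear_combination h2 - h1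
  have hxne : ∀ i ∈ T, ∀ j ∈ T', x j - x i ≠ 0 := fun i hi j hj =>
    sub_ne_zero.mpr (fun e => hne i hi j hj (hx e).symm)
  have hd1 : ∀ e ∈ F, e - d' ≠ 0 := fun e he => sub_ne_zero.mpr (Finset.mem_erase.mp he).1
  have hd0 : ∀ e ∈ F, e - d ≠ 0 := fun e he =>
    sub_ne_zero.mpr (Finset.mem_erase.mp (Finset.mem_erase.mp he).2).1
  have huine : ∀ i ∈ T, u i ≠ 0 := by
    intro i hi
    rw [hui i hi i3 m3]
    exact neg_ne_zero.mpr (mul_ne_zero (hxne i hi i3 m3) (hd1 _ (hmemF i hi i3 m3)))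
  have hvjne : ∀ j ∈ T', v j ≠ 0 := by
    intro j hj
    rw [hvj i0 m0 j hj]
    exact mul_ne_zero (hxne i0 m0 j hj) (hd0 _ (hmemF i0 m0 j hj))
  set φ : ℂ → ℂ := fun e => (e - d) / (e - d') with hφ
  have hφe : ∀ i ∈ T, ∀ j ∈ T', φ (ms x y i j) = -v j / u i := by
    intro i hi j hj
    have h1 := hxne i hi j hj
    have h2 := hd1 _ (hmemF i hi j hj)
    simp only [hφ]
    rw [div_eq_div_iff h2 (huine i hi), hui i hi j hj, hvj i hi j hj]
    ring
  -- the products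
  have hPi : ∀ i ∈ T, F = {ms x y i i3, ms x y i i4, ms x y i i5} ∧
      (∏ e ∈ F, φ e) * u i ^ 3 = -(v i3 * v i4 * v i5) := by
    intro i hi
    obtain ⟨h1, h2⟩ := prod3 hFc (hmemF i hi i3 m3) (hmemF i hi i4 m4) (hmemF i hi i5 m5)
      (ht.sep i hi i3 (hnot _ m3) i4 (hnot _ m4) ht'.n01)
      (ht.sep i hi i3 (hnot _ m3) i5 (hnot _ m5) ht'.n02)
      (ht.sep i hi i4 (hnot _ m4) i5 (hnot _ m5) ht'.n12)
    refine ⟨h1, ?_⟩
    have h3 := huine i hi
    rw [h2 φ, hφe i hi i3 m3, hφe i hi i4 m4, hφe i hi i5 m5]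
    field_simp
  have hPj : ∀ j ∈ T', (∏ e ∈ F, φ e) * (u i0 * u i1 * u i2) = -v j ^ 3 := by
    intro j hj
    have hcm : ∀ i, ms x y i j = ms x y j i := fun i => ms_comm x y i j
    obtain ⟨-, h2⟩ := prod3 hFc (hmemF i0 m0 j hj) (hmemF i1 m1 j hj) (hmemF i2 m2 j hj)
      (by rw [hcm i0, hcm i1]; exact ht'.sep j hj i0 (hnot' _ m0) i1 (hnot' _ m1) ht.n01)
      (by rw [hcm i0, hcm i2]; exact ht'.sep j hj i0 (hnot' _ m0) i2 (hnot' _ m2) ht.n02)
      (by rw [hcm i1, hcm i2]; exact ht'.sep j hj i1 (hnot' _ m1) i2 (hnot' _ m2) ht.n12)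
    have h30 := huine i0 m0
    have h31 := huine i1 m1
    have h32 := huine i2 m2
    rw [h2 φ, hφe i0 m0 j hj, hφe i1 m1 j hj, hφe i2 m2 j hj]
    field_simp
  have hC : (∏ e ∈ F, φ e) ≠ 0 := by
    rw [Finset.prod_ne_zero_iff]
    intro e he
    exact div_ne_zero (hd0 e he) (hd1 e he)
  have hU : ∀ i ∈ T, u i ^ 3 = u i0 ^ 3 := by
    intro i hi
    apply mul_left_cancel₀ hC
    rw [(hPi i hi).2, (hPi i0 m0).2]
  have hW : ∀ j ∈ T', v j ^ 3 = v i3 ^ 3 := by
    intro j hj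
    have h1 := hPj j hj
    have h2 := hPj i3 m3
    linear_combination h1 - h2
  have hUne : u i0 ^ 3 ≠ 0 := pow_ne_zero 3 (huine i0 m0)
  have hWne : v i3 ^ 3 ≠ 0 := pow_ne_zero 3 (hvjne i3 m3)
  obtain ⟨k, hk⟩ := IsAlgClosed.exists_pow_nat_eq (-1 / u i0 ^ 3) (n := 3) (by norm_num)
  obtain ⟨l, hl⟩ := IsAlgClosed.exists_pow_nat_eq (-1 / v i3 ^ 3) (n := 3) (by norm_num)
  have hk1 : k ^ 3 * u i0 ^ 3 = -1 := by rw [hk]; exact div_mul_cancel₀ _ hUne
  have hl1 : l ^ 3 * v i3 ^ 3 = -1 := by rw [hl]; exact div_mul_cancel₀ _ hWne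
  have hk0 : k ≠ 0 := by
    rintro rfl
    norm_num at hk1
  have hl0 : l ≠ 0 := by
    rintro rfl
    norm_num at hl1
  refine ⟨-(k * d'), k, -(k * (y i3 - d' * x i3)), -(l * d), l, -(l * (y i0 - d * x i0)), ?_, ?_, ?_⟩
  · have : -(k * d') * l - -(l * d) * k = k * l * (d - d') := by ring
    rw [this]
    exact mul_ne_zero (mul_ne_zero hk0 hl0) (sub_ne_zero.mpr hdd)
  · intro i
    rcases hall i with hi | hi
    · refine ⟨-(k * u i), ?_, Or.inl ⟨?_, ?_⟩⟩
      · have h1 := hU i hi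
        linear_combination (-k ^ 3) * h1 - hk1
      · simp only [hu]
        ring
      · have h1 := hv0 i hi
        simp only [hv] at h1
        linear_combination l * h1
    · refine ⟨-(l * v i), ?_, Or.inr ⟨?_, ?_⟩⟩
      · have h1 := hW i hi
        linear_combination (-l ^ 3) * h1 - hl1
      · have h1 := hu0 i hi
        simp only [hu] at h1
        linear_combination k * h1
      · simp only [hv]
        ring
  · intro σ hσ
    by_cases h1 : σ = d'
    · left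
      rw [h1]; ring
    by_cases h2 : σ = d
    · right; left
      rw [h2]; ring
    right; right
    have hσF : σ ∈ F := Finset.mem_erase.mpr ⟨h1, Finset.mem_erase.mpr ⟨h2, hσ⟩⟩
    obtain ⟨j, hj, hσj⟩ : ∃ j ∈ T', σ = ms x y i0 j := by
      have h3 := (hPi i0 m0).1
      rw [h3] at hσF
      simp only [Finset.mem_insert, Finset.mem_singleton] at hσF
      rcases hσF with h | h | h
      · exact ⟨i3, m3, h⟩
      · exact ⟨i4, m4, h⟩
      · exact ⟨i5, m5, h⟩
    have h3 := hφe i0 m0 j hj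
    rw [← hσj] at h3
    simp only [hφ] at h3
    have h4 := hd1 σ hσF
    have h5 := huine i0 m0
    rw [div_eq_div_iff h4 h5] at h3
    refine ⟨(l * v j) / (k * u i0), ?_, ?_⟩
    · rw [div_pow, div_eq_one_iff_eq (pow_ne_zero 3 (mul_ne_zero hk0 h5)), mul_pow, mul_pow,
        hW j hj, hl1, hk1]
    · have h6' : k * u i0 ≠ 0 := mul_ne_zero hk0 h5
      field_simp
      linear_combination h3

end Pool.Agent.Lib.MP_70c3c6_co.OD
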