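import Pool.Agent.Lib.MP_70c3c6_co.OD.Spec

/-!
# SIX: a system `Sys2` has exactly six points
-/

set_option autoImplicit false
open Classical

namespace Pool.Agent.Lib.MP_70c3c6_co.OD

open Pool.Agent.Lib.MP_70c3c6_co.EQ

theorem specSIX (hTRP : SpecTRP) (hVEC : SpecVEC) (hFOR : SpecFOR) (hNIN : SpecNIN) : SpecSIX := by
  intro ι _ x y τ E hS
  obtain ⟨hT1, hT2, hT3⟩ := hTRP ι x y τ E hS
  choose a b hab using hT2
  -- the blocks
  let S : ι → Finset ι := fun i => {i, a i, b i}
  have hSdef : ∀ i, S i = {i, a i, b i} := fun i => rfl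
  have hSm : ∀ i, i ∈ S i := fun i => by simp [hSdef]
  have hScard : ∀ i, (S i).card = 3 := by
    intro i
    obtain ⟨h1, h2, h3, _⟩ := hab i
    rw [hSdef, Finset.card_eq_three]
    exact ⟨i, a i, b i, h1.symm, h2.symm, h3, rfl⟩
  have hSeq : ∀ i j, j ∈ S i → S j = S i := by
    intro i j hj
    rw [hSdef] at hj
    rw [Finset.mem_insert, Finset.mem_insert, Finset.mem_singleton] at hj
    have key : ∀ j l : ι, Tr x y i j l → S j = {i, j, l} := by
      intro j l h
      have h' := (hT1 i j l h).2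
      rw [hSdef]
      rcases hT3 j i l (a j) (b j) h' (hab j) with ⟨e1, e2⟩ | ⟨e1, e2⟩
      · rw [e1, e2]
        ext z
        simp only [Finset.mem_insert, Finset.mem_singleton]
        tauto
      · rw [e1, e2]
        ext z
        simp only [Finset.mem_insert, Finset.mem_singleton]
        tauto
    rcases hj with rfl | rfl | rfl
    · rfl
    · rw [key _ _ (hab i), hSdef]
    · rw [key _ _ (hT1 _ _ _ (hab i)).1, hSdef]
      ext z
      simp only [Finset.mem_insert, Finset.mem_singleton]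
      tauto
  have hsym : ∀ i j, j ∉ S i → i ∉ S j := by
    intro i j h h'
    apply h
    rw [hSeq j i h']
    exact hSm j
  have hdisj : ∀ (U : Finset ι) (i : ι), (∀ j ∈ U, S j ⊆ U) → i ∉ U → Disjoint U (S i) := by
    intro U i hU hi
    rw [Finset.disjoint_left]
    intro j hjU hj
    apply hi
    have h1 := hSeq i j hj
    exact hU j hjU (h1 ▸ hSm i)
  have hclosed : ∀ (U : Finset ι) (i : ι), (∀ j ∈ U, S j ⊆ U) → ∀ j ∈ U ∪ S i, S j ⊆ U ∪ S i := by
    intro U i hU j hj
    rcases Finset.mem_union.1 hj with h | h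
    · exact (hU j h).trans Finset.subset_union_left
    · rw [hSeq i j h]
      exact Finset.subset_union_right
  have hout : ∀ U : Finset ι, U.card ≠ Fintype.card ι → ∃ i, i ∉ U := by
    intro U hU
    by_contra hcon
    push Not at hcon
    apply hU
    rw [Finset.eq_univ_iff_forall.2 hcon, Finset.card_univ]
  by_contra h6
  have h4 := hS.four
  have h9 := hNIN ι x y τ E hS
  have hne : Nonempty ι := by
    rw [← Fintype.card_pos_iff]
    omega
  obtain ⟨i0⟩ := hne
  have c0 : ∀ j ∈ S i0, S j ⊆ S i0 := fun j hj => (hSeq i0 j hj).subset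
  obtain ⟨i1, hi1⟩ := hout (S i0) (by rw [hScard]; omega)
  have d1 := hdisj _ i1 c0 hi1
  have c1 := hclosed _ i1 c0
  have k1 : (S i0 ∪ S i1).card = 6 := by
    rw [Finset.card_union_of_disjoint d1, hScard, hScard]
  obtain ⟨i2, hi2⟩ := hout (S i0 ∪ S i1) (by rw [k1]; omega)
  have d2 := hdisj _ i2 c1 hi2
  have c2 := hclosed _ i2 c1
  have k2 : (S i0 ∪ S i1 ∪ S i2).card = 9 := by
    rw [Finset.card_union_of_disjoint d2, hScard, k1]
  obtain ⟨i3, hi3⟩ := hout (S i0 ∪ S i1 ∪ S i2) (by rw [k2]; omega)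
  rw [Finset.mem_union, not_or] at hi2
  rw [Finset.mem_union, Finset.mem_union, not_or, not_or] at hi3
  obtain ⟨hi20, hi21⟩ := hi2
  obtain ⟨⟨hi30, hi31⟩, hi32⟩ := hi3
  let I : Fin 4 → ι := ![i0, i1, i2, i3]
  have hI : ∀ n n' : Fin 4, n ≠ n' → I n' ∉ S (I n) := by
    intro n n' hn
    fin_cases n <;> fin_cases n'
    · exact absurd rfl hn
    · exact hi1
    · exact hi20
    · exact hi30
    · exact hsym _ _ hi1
    · exact absurd rfl hn
    · exact hi21
    · exact hi31
    · exact hsym _ _ hi20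
    · exact hsym _ _ hi21
    · exact absurd rfl hn
    · exact hi32
    · exact hsym _ _ hi30
    · exact hsym _ _ hi31
    · exact hsym _ _ hi32
    · exact absurd rfl hn
  obtain ⟨g, d, hTT, hRR⟩ := hVEC ι x y τ E hS
  refine hFOR (fun n => ![pt x y (I n), pt x y (a (I n)), pt x y (b (I n))])
    (fun n => ![fb x y τ g (I n), fb x y τ g (a (I n)), fb x y τ g (b (I n))])
    (fun n => fd x y d (I n)) (fun n => hTT _ _ _ (hab (I n))) ?_
  intro n n' hn
  have h := hI n n' hn
  rw [hSdef, Finset.mem_insert, Finset.mem_insert, Finset.mem_singleton, not_or, not_or] at h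
  exact hRR _ _ _ _ _ _ (hab (I n)) (hab (I n')) h.1 h.2.1 h.2.2

end Pool.Agent.Lib.MP_70c3c6_co.OD
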