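import Pool.Agent.Lib.MP_70c3c6_co.OD.Spec

/-!
# SLQ. The lemma of tangents
-/

set_option autoImplicit false
open Classical

namespace Pool.Agent.Lib.MP_70c3c6_co.OD

open Pool.Agent.Lib.MP_70c3c6_co.EQ

namespace SLQM

open Finset

variable {ι : Type} [Fintype ι] {x y τ : ι → ℂ} {E : Finset ℂ}

/-- uniqueness of the triple of a point -/
def Uniq (x y : ι → ℂ) : Prop :=
  ∀ i j l j' l', Tr x y i j l → Tr x y i j' l' → (j' = j ∧ l' = l) ∨ (j' = l ∧ l' = j)

lemma image_eq (h : Sys2 x y τ E) (hu : Uniq x y) {i a b : ι} (ht : Tr x y i a b) :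
    Set.InjOn (ms x y i) ((univ.erase i).erase b : Finset ι) ∧
      ((univ.erase i).erase b).image (ms x y i) = E.erase (τ i) := by
  have hinj : Set.InjOn (ms x y i) ((univ.erase i).erase b : Finset ι) := by
    intro l hl l' hl' hll
    rw [Finset.mem_coe, Finset.mem_erase, Finset.mem_erase] at hl hl'
    by_contra hne
    have h1 : Tr x y i l l' := ⟨hl.2.1, hl'.2.1, hne, hll⟩
    rcases hu i a b l l' ht h1 with ⟨_, h2⟩ | ⟨h2, _⟩
    · exact hl'.1 h2
    · exact hl.1 h2
  refine ⟨hinj, ?_⟩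
  refine Finset.eq_of_subset_of_card_le ?_ ?_
  · intro e he
    obtain ⟨l, hl, rfl⟩ := Finset.mem_image.mp he
    rw [Finset.mem_erase, Finset.mem_erase] at hl
    exact Finset.mem_erase.mpr ⟨h.tang i l (Ne.symm hl.2.1), h.chord i l (Ne.symm hl.2.1)⟩
  · rw [Finset.card_image_of_injOn hinj, Finset.card_erase_of_mem (h.tau i),
      Finset.card_erase_of_mem (Finset.mem_erase.mpr ⟨ht.2.1, Finset.mem_univ _⟩),
      Finset.card_erase_of_mem (Finset.mem_univ _), Finset.card_univ]
    have := h.card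
    omega

lemma prodE (h : Sys2 x y τ E) (hu : Uniq x y) {i a b j : ι} (ht : Tr x y i a b)
    (hji : j ≠ i) (hjb : j ≠ b) :
    ∏ e' ∈ E.erase (ms x y i j), (ms x y i j - e') =
      (ms x y i j - τ i) * ∏ l ∈ ((univ.erase i).erase b).erase j, (ms x y i j - ms x y i l) := by
  obtain ⟨hinj, himg⟩ := image_eq h hu ht
  have hj : j ∈ (univ.erase i).erase b :=
    Finset.mem_erase.mpr ⟨hjb, Finset.mem_erase.mpr ⟨hji, Finset.mem_univ _⟩⟩
  have h1 : τ i ∈ E.erase (ms x y i j) :=
    Finset.mem_erase.mpr ⟨Ne.symm (h.tang i j (Ne.symm hji)), h.tau i⟩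
  rw [← Finset.mul_prod_erase _ _ h1]
  congr 1
  rw [Finset.erase_right_comm, ← himg]
  have h2 : (((univ.erase i).erase b).image (ms x y i)).erase (ms x y i j) =
      (((univ.erase i).erase b).erase j).image (ms x y i) := by
    ext e
    rw [Finset.mem_erase, Finset.mem_image, Finset.mem_image]
    constructor
    · rintro ⟨hne, l, hl, rfl⟩
      exact ⟨l, Finset.mem_erase.mpr ⟨fun hlj => hne (by rw [hlj]), hl⟩, rfl⟩
    · rintro ⟨l, hl, rfl⟩
      rw [Finset.mem_erase] at hl
      exact ⟨fun heq => hl.1 (hinj hl.2 hj heq), l, hl.2, rfl⟩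
  rw [h2, Finset.prod_image]
  intro l hl l' hl' hll
  exact hinj (Finset.mem_of_mem_erase hl) (Finset.mem_of_mem_erase hl') hll

lemma ms_symm (x y : ι → ℂ) (i j : ι) : ms x y j i = ms x y i j := by
  unfold ms
  rw [← neg_sub (y j) (y i), ← neg_sub (x j) (x i), neg_div_neg_eq]

lemma ms_mul (h : Sys2 x y τ E) {i j : ι} (hij : i ≠ j) :
    ms x y i j * (x j - x i) = y j - y i := by
  unfold ms
  have : x j - x i ≠ 0 := sub_ne_zero.mpr fun e => hij (h.inj e).symm
  field_simp

/-- the products over a set of further points -/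
lemma trade (h : Sys2 x y τ E) {i j : ι} (hij : i ≠ j) (T : Finset ι) (hi : i ∉ T) (hj : j ∉ T) :
    (∏ l ∈ T, (ms x y i j - ms x y i l)) * ∏ l ∈ T, (x l - x i) =
      (∏ l ∈ T, (ms x y i j - ms x y j l)) * ∏ l ∈ T, (x l - x j) := by
  rw [← Finset.prod_mul_distrib, ← Finset.prod_mul_distrib]
  refine Finset.prod_congr rfl fun l hl => ?_
  have hil : i ≠ l := fun e => hi (e ▸ hl)
  have hjl : j ≠ l := fun e => hj (e ▸ hl)
  have e1 := ms_mul h hij
  have e2 := ms_mul h hil
  have e3 := ms_mul h hjl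
  linear_combination e3 - e2 + e1

lemma prod_ne (h : Sys2 x y τ E) {i : ι} (T : Finset ι) (hi : i ∉ T) :
    ∏ l ∈ T, (x l - x i) ≠ 0 :=
  Finset.prod_ne_zero_iff.mpr fun l hl =>
    sub_ne_zero.mpr fun e => hi ((h.inj e) ▸ hl)

end SLQM

open SLQM Finset in
theorem specSLQ (hTRP : SpecTRP) : SpecSLQ := by
  intro ι _ x y τ E h
  obtain ⟨t1, t2, t3⟩ := hTRP ι x y τ E h
  have hu : Uniq x y := t3
  choose a b hab using t2
  have hd : ∀ i j l, Tr x y i j l → ms x y i (a i) = ms x y i j := by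
    intro i j l ht
    rcases t3 i (a i) (b i) j l (hab i) ht with ⟨e1, _⟩ | ⟨e1, _⟩
    · rw [e1]
    · rw [e1]
      exact (hab i).2.2.2
  refine ⟨fun i => (∏ l ∈ univ.erase i, (x l - x i))⁻¹, fun i => ms x y i (a i), ?_, hd, ?_, ?_⟩
  · intro i
    exact inv_ne_zero (prod_ne h _ (Finset.notMem_erase _ _))
  · intro i j hij hno
    have hno' : ∀ l, ¬ Tr x y j i l := fun l ht => hno l (t1 _ _ _ ht).2
    set e := ms x y i j with he
    have he' : ms x y j i = e := ms_symm x y i j
    set T := (univ.erase i).erase j with hT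
    have hT' : (univ.erase j).erase i = T := Finset.erase_right_comm
    have hiT : i ∉ T := fun hh => Finset.notMem_erase i univ (Finset.mem_of_mem_erase hh)
    have hjT : j ∉ T := Finset.notMem_erase _ _
    -- the product at `i`
    have key : ∀ u v : ι, u ≠ v → (∀ l, ¬ Tr x y u v l) →
        (ms x y u v - ms x y u (a u)) * ∏ e' ∈ E.erase (ms x y u v), (ms x y u v - e') =
          (ms x y u v - τ u) * ∏ l ∈ (univ.erase u).erase v, (ms x y u v - ms x y u l) := by
      intro u v huv hn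
      have hvb : v ≠ b u := by
        rintro rfl
        exact hn _ (t1 _ _ _ (hab u)).1
      rw [prodE h hu (hab u) (Ne.symm huv) hvb, Finset.erase_right_comm,
        (hab u).2.2.2]
      have hb : b u ∈ (univ.erase u).erase v :=
        Finset.mem_erase.mpr ⟨Ne.symm hvb, Finset.mem_erase.mpr ⟨(hab u).2.1, Finset.mem_univ _⟩⟩
      rw [← Finset.mul_prod_erase _ _ hb]
      ring
    have k1 := key i j hij hno
    have k2 := key j i (Ne.symm hij) hno'
    rw [he', hT'] at k2
    rw [← he, ← hT] at k1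
    have k3 := trade h hij T hiT hjT
    rw [← he] at k3
    set F := ∏ e' ∈ E.erase e, (e - e') with hF
    set Pi := ∏ l ∈ T, (e - ms x y i l) with hPi
    set Pj := ∏ l ∈ T, (e - ms x y j l) with hPj
    set Ai := ∏ l ∈ T, (x l - x i) with hAi
    set Aj := ∏ l ∈ T, (x l - x j) with hAj
    have hAi0 : Ai ≠ 0 := prod_ne h T hiT
    have hAj0 : Aj ≠ 0 := prod_ne h T hjT
    have hPi0 : Pi ≠ 0 := by
      rw [hPi, Finset.prod_ne_zero_iff]
      intro l hl
      refine sub_ne_zero.mpr fun hel => hno l ⟨Ne.symm hij, ?_, ?_, hel⟩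
      · exact fun e => hiT (e ▸ hl)
      · exact fun e => hjT (e ▸ hl)
    have k4 : (e - τ i) * (e - ms x y j (a j)) * Aj = (e - τ j) * (e - ms x y i (a i)) * Ai := by
      have h1 : (e - τ i) * Pi * (e - ms x y j (a j)) = (e - τ j) * Pj * (e - ms x y i (a i)) := by
        rw [← k1, ← k2]
        ring
      have h2 : Pi * Ai ≠ 0 := mul_ne_zero hPi0 hAi0
      apply mul_left_cancel₀ h2
      calc Pi * Ai * ((e - τ i) * (e - ms x y j (a j)) * Aj)
          = ((e - τ i) * Pi * (e - ms x y j (a j))) * Ai * Aj := by ring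
        _ = ((e - τ j) * Pj * (e - ms x y i (a i))) * Ai * Aj := by rw [h1]
        _ = (Pj * Aj) * ((e - τ j) * (e - ms x y i (a i)) * Ai) := by ring
        _ = Pi * Ai * ((e - τ j) * (e - ms x y i (a i)) * Ai) := by rw [k3]
    have gi : ∏ l ∈ univ.erase i, (x l - x i) = (x j - x i) * Ai := by
      rw [← Finset.mul_prod_erase (univ.erase i) _
        (Finset.mem_erase.mpr ⟨Ne.symm hij, Finset.mem_univ j⟩)]
    have gj : ∏ l ∈ univ.erase j, (x l - x j) = (x i - x j) * Aj := by
      rw [← Finset.mul_prod_erase (univ.erase j) _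
        (Finset.mem_erase.mpr ⟨hij, Finset.mem_univ i⟩), hT']
    have hX : x j - x i ≠ 0 := sub_ne_zero.mpr fun e => hij (h.inj e).symm
    have hX' : x i - x j ≠ 0 := sub_ne_zero.mpr fun e => hij (h.inj e)
    have hy : y j - y i = e * (x j - x i) := (ms_mul h hij).symm
    have hy' : y i - y j = -(e * (x j - x i)) := by rw [← hy]; ring
    have e5 : x i - x j = -(x j - x i) := by ring
    simp only [gi, gj, hy, hy', e5]
    field_simp
    linear_combination (-(x j - x i)) * k4
  · intro i j l ht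
    have ht2 := (t1 _ _ _ ht).2
    have hij : i ≠ j := Ne.symm ht.1
    have hli : l ≠ i := ht.2.1
    have hjl : j ≠ l := ht.2.2.1
    set e := ms x y i j with he
    have he' : ms x y j i = e := ms_symm x y i j
    set T := ((univ.erase i).erase l).erase j with hT
    have hT' : ((univ.erase j).erase l).erase i = T := by
      rw [hT]
      ext r
      simp only [Finset.mem_erase, Finset.mem_univ, and_true]
      tauto
    have hiT : i ∉ T := by
      rw [hT]
      simp
    have hjT : j ∉ T := Finset.notMem_erase _ _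
    have hlT : l ∉ T := by
      rw [hT]
      simp
    have k1 := prodE h hu ht (Ne.symm hij) hjl
    have k2 := prodE h hu ht2 hij (Ne.symm hli)
    rw [← he, ← hT] at k1
    rw [he', hT'] at k2
    have k3 := trade h hij T hiT hjT
    rw [← he] at k3
    set F := ∏ e' ∈ E.erase e, (e - e') with hF
    set Pi := ∏ l ∈ T, (e - ms x y i l) with hPi
    set Pj := ∏ l ∈ T, (e - ms x y j l) with hPj
    set Ai := ∏ l ∈ T, (x l - x i) with hAi
    set Aj := ∏ l ∈ T, (x l - x j) with hAj
    have hAi0 : Ai ≠ 0 := prod_ne h T hiT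
    have hAj0 : Aj ≠ 0 := prod_ne h T hjT
    have hPi0 : Pi ≠ 0 := by
      rw [hPi, Finset.prod_ne_zero_iff]
      intro r hr
      refine sub_ne_zero.mpr fun her => ?_
      have h1 : Tr x y i j r :=
        ⟨Ne.symm hij, fun e => hiT (e ▸ hr), fun e => hjT (e ▸ hr), her⟩
      rcases t3 i j l j r ht h1 with ⟨_, h2⟩ | ⟨h2, _⟩
      · exact hlT (h2 ▸ hr)
      · exact hjl h2
    have k4 : (e - τ i) * Aj = (e - τ j) * Ai := by
      have h1 : (e - τ i) * Pi = (e - τ j) * Pj := by rw [← k1, ← k2]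
      have h2 : Pi * Ai ≠ 0 := mul_ne_zero hPi0 hAi0
      apply mul_left_cancel₀ h2
      calc Pi * Ai * ((e - τ i) * Aj) = ((e - τ i) * Pi) * Ai * Aj := by ring
        _ = ((e - τ j) * Pj) * Ai * Aj := by rw [h1]
        _ = (Pj * Aj) * ((e - τ j) * Ai) := by ring
        _ = Pi * Ai * ((e - τ j) * Ai) := by rw [k3]
    have gi : ∏ r ∈ univ.erase i, (x r - x i) = (x l - x i) * ((x j - x i) * Ai) := by
      rw [← Finset.mul_prod_erase (univ.erase i) _
        (Finset.mem_erase.mpr ⟨hli, Finset.mem_univ l⟩),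
        ← Finset.mul_prod_erase ((univ.erase i).erase l) _
        (Finset.mem_erase.mpr ⟨hjl, Finset.mem_erase.mpr ⟨Ne.symm hij, Finset.mem_univ j⟩⟩)]
    have gj : ∏ r ∈ univ.erase j, (x r - x j) = (x l - x j) * ((x i - x j) * Aj) := by
      rw [← Finset.mul_prod_erase (univ.erase j) _
        (Finset.mem_erase.mpr ⟨Ne.symm hjl, Finset.mem_univ l⟩),
        ← Finset.mul_prod_erase ((univ.erase j).erase l) _
        (Finset.mem_erase.mpr ⟨Ne.symm hli, Finset.mem_erase.mpr ⟨hij, Finset.mem_univ i⟩⟩), hT']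
    have hX : x j - x i ≠ 0 := sub_ne_zero.mpr fun e => hij (h.inj e).symm
    have hXl : x l - x i ≠ 0 := sub_ne_zero.mpr fun e => hli (h.inj e)
    have hXj : x l - x j ≠ 0 := sub_ne_zero.mpr fun e => hjl (h.inj e).symm
    have hy1 : y l - y i = e * (x l - x i) := by
      rw [he, ht.2.2.2]
      exact (ms_mul h (Ne.symm hli)).symm
    have hy2 : y l - y j = e * (x l - x j) := by
      rw [← he', ht2.2.2.2]
      exact (ms_mul h hjl).symm
    have e5 : x i - x j = -(x j - x i) := by ring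
    simp only [gi, gj, hy1, hy2, e5]
    field_simp
    linear_combination k4

end Pool.Agent.Lib.MP_70c3c6_co.OD
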