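import Pool.Agent.Lib.MP_70c3c6_co.EQ.Spec

/-!
MP_70c3c6_co, the equality case for an odd number of lines.  THEOREM.  A complex supersolvable
arrangement of s lines, not a pencil, has 2 t_2 = s + 1 iff s = 11 and it is projectively
x y (x^3 - y^3)(y^3 - z^3)(z^3 - x^3) = 0.

Plan.  k lines off p, m through p.  2 t_2 = s + 1 forces k = m + 1, m at least 3, and every line off
p has exactly one double point.  Dually: k points P_i = (x_i, y_i), a set E of k - 1 slopes
containing all slopes m_ij of chords, tau_i in E is seen from P_i by no chord, every other e in E is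
seen (Sys2).  So P_i sees exactly one slope d_i twice: the points are partitioned into collinear
triples (TRP), with no other collinear triples.  Lemma of tangents (SLQ).  With the linear forms
B_i(P) = g_i((y - y_i) - tau_i (x - x_i)), D_i(P) = (y - y_i) - d_i (x - x_i) (the line of the triple of i):
R1: B_i(P_j) D_j(P_i) + B_j(P_i) D_i(P_j) = 0 for i, j in different triples,
R2: B_i(P_l) + B_j(P_l) = 0 for a triple i, j, l.
These are projective conditions.  AFF, HES: for two triples with lines D, D' meeting in O, the three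
points of the first triple are an equianharmonic triple with respect to O, so O is one of two
points of D; CNX: three lines D, D', D'' of triples are never concurrent; hence at most 3 triples (N4).
TRI, T9: three triples would be (0,1,l_i), (m_j,0,1), (1,n_k,0) with cubes of product 1 and then
8 directions are not enough for the 27 chords between different triples.  So there are two triples
(one triple means k = 3), k = 6, m = 5, and S6 finishes.
-/

set_option autoImplicit false
open Classical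

namespace Pool.Agent.Lib.MP_70c3c6_co.OD

open Pool.Agent.Lib.MP_70c3c6_co.EQ

/-- a system of points with one point more than slopes -/
structure Sys2 {ι : Type} [Fintype ι] (x y τ : ι → ℂ) (E : Finset ℂ) : Prop where
  inj : Function.Injective x
  card : E.card + 1 = Fintype.card ι
  four : 4 ≤ Fintype.card ι
  tau : ∀ i, τ i ∈ E
  chord : ∀ i j, i ≠ j → ms x y i j ∈ E
  tang : ∀ i j, i ≠ j → ms x y i j ≠ τ i
  cover : ∀ i, ∀ e ∈ E, e ≠ τ i → ∃ j, j ≠ i ∧ ms x y i j = e

/-- a collinear triple -/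
def Tr {ι : Type} (x y : ι → ℂ) (i j l : ι) : Prop :=
  j ≠ i ∧ l ≠ i ∧ j ≠ l ∧ ms x y i j = ms x y i l

/-- TRP.  Proof: Tr i j l gives Tr i l j; and Tr j i l because ms j i = ms i j and the points are
collinear (x injective).  Fix i, card of the index set k.  j -> ms i j maps univ.erase i (k - 1
elements) onto E.erase (tau i) (k - 2 elements): not injective, so some Tr i j l.  Uniqueness: if
Tr i j l, Tr i j' l' and {j',l'} is not {j,l}, let s in {j',l'} be outside {j,l}, s' the other
one; removing l and s from univ.erase i does not change the image (ms i l = ms i j with j not l,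
not s; ms i s = ms i s', and if s' = l this is ms i j), so the image has at most k - 3 elements. -/
def SpecTRP : Prop := ∀ (ι : Type) [Fintype ι] (x y τ : ι → ℂ) (E : Finset ℂ), Sys2 x y τ E →
  (∀ i j l, Tr x y i j l → Tr x y i l j ∧ Tr x y j i l) ∧
  (∀ i, ∃ j l, Tr x y i j l) ∧
  (∀ i j l j' l', Tr x y i j l → Tr x y i j' l' → (j' = j ∧ l' = l) ∨ (j' = l ∧ l' = j))

/-- SLQ, the lemma of tangents.  Proof: g_i = 1/G_i, G_i = product over l other than i of
(x_l - x_i), d_i = ms i j for any Tr i j l (TRP).  (1) Let i, j be distinct, no Tr i j l, e = m_ij,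
Fe = product of e - e' over E.erase e.  By TRP, with Tr i a b: E = insert tau_i (image of m_i. on
the l other than i, b), injective there; so (e - d_i) Fe = (e - tau_i) Pi_i, Pi_i = product over
l other than i, j of (e - m_il) (d_i = m_ib); the same for j: (e - d_j) Fe = (e - tau_j) Pi_j.  Since
(e - m_il)(x_l - x_i) = (e - m_jl)(x_l - x_j) [e (x_j - x_i) = y_j - y_i], Pi_i A_i = Pi_j A_j with
A_i = product over l other than i, j of (x_l - x_i); Pi_i is not 0 as there is no Tr i j l.  Hence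
(e-tau_i)(e-d_j) A_j = (e-tau_j)(e-d_i) A_i, G_i = A_i (x_j-x_i), G_j = A_j (x_i-x_j), so
(e-tau_i)(e-d_j) g_i = -(e-tau_j)(e-d_i) g_j, which times -(x_j-x_i)^2 is R1.  (2) Tr i j l, e = m_ij:
Fe = (e-tau_i) Pi_i = (e-tau_j) Pi_j with products over r other than i, j, l, again
Pi_i A_i = Pi_j A_j not 0, so (e-tau_i) A_j = (e-tau_j) A_i, G_i = A_i (x_j-x_i)(x_l-x_i),
G_j = A_j (x_i-x_j)(x_l-x_j), which gives g_i(e-tau_i)(x_l-x_i) = -g_j(e-tau_j)(x_l-x_j). -/
def SpecSLQ : Prop := ∀ (ι : Type) [Fintype ι] (x y τ : ι → ℂ) (E : Finset ℂ), Sys2 x y τ E →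
  ∃ g d : ι → ℂ, (∀ i, g i ≠ 0) ∧ (∀ i j l, Tr x y i j l → d i = ms x y i j) ∧
  (∀ i j, i ≠ j → (∀ l, ¬ Tr x y i j l) →
    g i * ((y j - y i) - τ i * (x j - x i)) * ((y i - y j) - d j * (x i - x j)) +
    g j * ((y i - y j) - τ j * (x i - x j)) * ((y j - y i) - d i * (x j - x i)) = 0) ∧
  (∀ i j l, Tr x y i j l →
    g i * ((y l - y i) - τ i * (x l - x i)) + g j * ((y l - y j) - τ j * (x l - x j)) = 0)

/-- A triple of points `P i` of the plane on the line `D` with linear forms `B i`. -/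
structure TT (P B : Fin 3 → V3) (D : V3) : Prop where
  ind : ∀ c0 c1 : ℂ, c0 • P 0 + c1 • P 1 = 0 → c0 = 0 ∧ c1 = 0
  sp : ∃ u v : ℂ, u ≠ 0 ∧ v ≠ 0 ∧ P 2 = u • P 0 + v • P 1
  D0 : D ≠ 0
  DP : ∀ i, dotProduct D (P i) = 0
  BP : ∀ i, dotProduct (B i) (P i) = 0
  Bne : ∀ i j, i ≠ j → dotProduct (B i) (P j) ≠ 0
  R2 : ∀ i j l, i ≠ j → i ≠ l → j ≠ l → dotProduct (B i) (P l) + dotProduct (B j) (P l) = 0

/-- the relation R1 between two triples -/
def RR (P B : Fin 3 → V3) (D : V3) (P' B' : Fin 3 → V3) (D' : V3) : Prop :=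
  ∀ i j, dotProduct D' (P i) ≠ 0 ∧ dotProduct D (P' j) ≠ 0 ∧
    dotProduct (B i) (P' j) * dotProduct D' (P i) +
      dotProduct (B' j) (P i) * dotProduct D (P' j) = 0

/-- the point of the plane with coordinates (x, y) -/
noncomputable def pt {ι : Type} (x y : ι → ℂ) (i : ι) : V3 := ![x i, y i, 1]

/-- the tangent form at i -/
noncomputable def fb {ι : Type} (x y τ g : ι → ℂ) (i : ι) : V3 :=
  ![- (g i * τ i), g i, g i * (τ i * x i - y i)]

/-- the line through i with slope d -/
noncomputable def fd {ι : Type} (x y d : ι → ℂ) (i : ι) : V3 := ![- d i, 1, d i * x i - y i]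

/-- VEC.  Proof: direct computation.  fb i . pt j = g_i((y_j - y_i) - tau_i(x_j - x_i)) =
g_i (x_j - x_i)(m_ij - tau_i), nonzero for i not j; fd i . pt j = (y_j - y_i) - d_i(x_j - x_i)
= (x_j - x_i)(m_ij - d_i), zero iff j = i or Tr i j _ (by TRP, because d_i = m_ia = m_ib for the
triple i, a, b of i).  fd i = fd j for Tr i j l.  pt l = u pt i + v pt j with
u = (x_j - x_l)/(x_j - x_i), v = (x_l - x_i)/(x_j - x_i).  For (2): no Tr i j _ and
not i = j, so R1 of SLQ applies and fd j . pt i, fd i . pt j are nonzero. -/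
def SpecVEC : Prop := ∀ (ι : Type) [Fintype ι] (x y τ : ι → ℂ) (E : Finset ℂ), Sys2 x y τ E →
  ∃ g d : ι → ℂ,
    (∀ i j l, Tr x y i j l → TT ![pt x y i, pt x y j, pt x y l]
      ![fb x y τ g i, fb x y τ g j, fb x y τ g l] (fd x y d i)) ∧
    (∀ i j l i' j' l', Tr x y i j l → Tr x y i' j' l' → i' ≠ i → i' ≠ j → i' ≠ l →
      RR ![pt x y i, pt x y j, pt x y l]
        ![fb x y τ g i, fb x y τ g j, fb x y τ g l] (fd x y d i)
        ![pt x y i', pt x y j', pt x y l']
        ![fb x y τ g i', fb x y τ g j', fb x y τ g l'] (fd x y d i'))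

/-- REP.  Proof: V = (D'.P_0)⁻¹ P_0.  P_0, P_1 span ker D (two independent vectors in a plane: for
instance P_0, P_1, P'_0 is a basis because D.P'_0 is not 0), so O and every P_i/(D'.P_i) - V, which
lie in ker D and ker D', are of the form c0 P_0 + c1 P_1 with c0 (D'.P_0) + c1 (D'.P_1) = 0, hence
proportional; O is not 0. -/
def SpecREP : Prop := ∀ (P B : Fin 3 → V3) (D : V3) (P' B' : Fin 3 → V3) (D' : V3),
  TT P B D → TT P' B' D' → RR P B D P' B' D' →
  ∃ O : V3, O ≠ 0 ∧ dotProduct D O = 0 ∧ dotProduct D' O = 0 ∧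
    (∀ w : V3, dotProduct D w = 0 → dotProduct D' w = 0 → ∃ c : ℂ, w = c • O) ∧
    ∃ (V V' : V3) (a a' : Fin 3 → ℂ),
      (∀ i, P i = dotProduct D' (P i) • (V + a i • O)) ∧
      (∀ j, P' j = dotProduct D (P' j) • (V' + a' j • O))

/-- AFF.  Proof: p_i = V + a_i O = P_i/(D'.P_i), q_j = V' + a'_j O = P'_j/(D.P'_j); the a_i are
distinct, and so are the a'_j (the P_i are pairwise independent: ind, sp).  R1 divided by
(D'.P_i)(D.P'_j): B_i(q_j) + B'_j(p_i) = 0.  Mixed second difference:
(a'_j - a'_j')(b_i - b_i') + (a_i - a_i')(c_j - c_j') = 0, b_i = B_i(O), c_j = B'_j(O), so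
b_i = r a_i + s, c_j = -r a'_j + s'.  R2 divided by D'.P_l: B_i(p_l) = (a_l - a_i) b_i (as B_i(p_i) = 0),
so (a_l - a_i) b_i + (a_l - a_j) b_j = 0.  Inserting b_i = r a_i + s in the three
instances: difference of two: r (a_0+a_1+a_2) + 3 s = 0; sum: r (a_0 a_1+a_0 a_2+a_1 a_2 -
a_0^2-a_1^2-a_2^2) = 0.  r is not 0, otherwise b = 0 and B_i(P_l) = 0.  The same for T'. -/
def SpecAFF : Prop := ∀ (P B : Fin 3 → V3) (D : V3) (P' B' : Fin 3 → V3) (D' : V3),
  TT P B D → TT P' B' D' → RR P B D P' B' D' →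
  ∀ (O V V' : V3) (a a' : Fin 3 → ℂ), O ≠ 0 → dotProduct D O = 0 → dotProduct D' O = 0 →
    (∀ i, P i = dotProduct D' (P i) • (V + a i • O)) →
    (∀ j, P' j = dotProduct D (P' j) • (V' + a' j • O)) →
    Function.Injective a ∧ Function.Injective a' ∧
    a 0 * a 1 + a 0 * a 2 + a 1 * a 2 = a 0 ^ 2 + a 1 ^ 2 + a 2 ^ 2 ∧
    a' 0 * a' 1 + a' 0 * a' 2 + a' 1 * a' 2 = a' 0 ^ 2 + a' 1 ^ 2 + a' 2 ^ 2 ∧
    ∃ r : ℂ, r ≠ 0 ∧ (∀ i, dotProduct (B i) O = r * (a i - (a 0 + a 1 + a 2) / 3)) ∧
      (∀ j, dotProduct (B' j) O = - r * (a' j - (a' 0 + a' 1 + a' 2) / 3))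

/-- HES.  Proof: h_i = D'.P_i, so h_2 = u h_0 + v h_1.  Take O, V, a from REP.  From P_i = h_i(V + a_i O)
and P_2 = u P_0 + v P_1: h_2 a_2 = u h_0 a_0 + v h_1 a_1 (coefficient of O; D'.V = 1 because
D'.P_i = h_i, so V, O are independent).  With H = u h_0, K = v h_1 (H + K = h_2 nonzero):
(H+K) a_2 = H a_0 + K a_1, so (H+K)(a_2 - a_0) = K (a_1 - a_0), (H+K)(a_2 - a_1) = -H (a_1 - a_0), and
2 (a_0^2+a_1^2+a_2^2 - a_0a_1-a_0a_2-a_1a_2) = (a_1-a_0)^2+(a_2-a_0)^2+(a_2-a_1)^2 = 0 gives, times (H+K)^2,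
(H+K)^2 + K^2 + H^2 = 0, that is 2 (H^2 + H K + K^2) = 0. -/
def SpecHES : Prop := ∀ (P B : Fin 3 → V3) (D : V3) (P' B' : Fin 3 → V3) (D' : V3),
  TT P B D → TT P' B' D' → RR P B D P' B' D' → ∀ u v : ℂ, P 2 = u • P 0 + v • P 1 →
    (u * dotProduct D' (P 0)) ^ 2 + (u * dotProduct D' (P 0)) * (v * dotProduct D' (P 1)) +
      (v * dotProduct D' (P 1)) ^ 2 = 0

/-- CNX, no three concurrent lines.  Proof: O, V, V', a, a' from REP for T, T'; AFF: B_i(O) = r(a_i - s),
r not 0.  p_i = V + a_i O.  D''.P_i = q (D'.P_i).  Q = V' + a'_0 O = P'_0/(D.P'_0), R = P''_0/(D.P''_0).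
R1 for (T,T'), j = 0: B_i(Q) = -B'_0(p_i), affine in a_i.  R1 for (T,T''), j = 0:
B_i(R) = -B''_0(p_i)/q, affine in a_i.  D.(R - Q) = 0, so R - Q = k p_0 + b O for some k, b (ker D is
spanned by V, O; or: D'.R = -p/q from D''.R = 0, and R - Q - (-p/q) p_0 is in ker D and ker D', so a
multiple of O by REP).  k = -p/q is not 0.  B_i(p_0) = B_i(p_0 - p_i) = (a_0 - a_i) B_i(O).  So
B_i(R) - B_i(Q) = (k(a_0 - a_i) + b) r (a_i - s) is affine in a_i for the three distinct
values a_0, a_1, a_2; the coefficient of a_i^2 is -k r, not 0: contradiction (second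
divided difference f_0(a_1-a_2)+f_1(a_2-a_0)+f_2(a_0-a_1) of the two sides). -/
def SpecCNX : Prop := ∀ (P B : Fin 3 → V3) (D : V3) (P' B' : Fin 3 → V3) (D' : V3)
  (P'' B'' : Fin 3 → V3) (D'' : V3), TT P B D → TT P' B' D' → TT P'' B'' D'' →
  RR P B D P' B' D' → RR P B D P'' B'' D'' →
  ∀ p q : ℂ, p ≠ 0 → q ≠ 0 → D'' = p • D + q • D' → False

/-- FOR, at most three triples.  Proof: P_2 = u P_0 + v P_1 (T = the first one).  By HES the ratio
(u D_n.P_0)/(v D_n.P_1), n = 1, 2, 3, is a root of t^2+t+1, which has two roots, so two of the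
three D_n, say D', D'', have the same ratio: D'' - c D' vanishes at P_0 and P_1 for some c, so it
is a multiple of D (both are in the annihilator of P_0, P_1, which has dimension 1; D is not 0):
D'' = p D + c D', c not 0 because D''.P_0 is not 0, p not 0 because D''.P'_0 is not 0 and
D'.P'_0 = 0.  CNX. -/
def SpecFOR : Prop := ∀ (P B : Fin 4 → Fin 3 → V3) (D : Fin 4 → V3),
  (∀ n, TT (P n) (B n) (D n)) → (∀ n n', n ≠ n' → RR (P n) (B n) (D n) (P n') (B n') (D n')) →
  False

/-- TRI.  Proof: D, D', D'' are linearly independent: otherwise one gets D'' = p D + q D' with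
p, q nonzero (D' is no multiple of D as D'.P_0 is not 0; p = 0 contradicts D''.P'_0 not 0 with
D'.P'_0 = 0, q = 0 contradicts D''.P_0 not 0) and CNX applies.  Let E1, E2, E3 be the dual basis
(D.E1 = 1, D'.E1 = D''.E1 = 0, ..).  l_i = D''.P_i/D'.P_i, m_j = D.P'_j/D''.P'_j,
n_k = D'.P''_k/D.P''_k.  P_i = (D'.P_i)(E2 + l_i E3) = (D''.P_i)(E3 + l_i⁻¹ E2), P'_j =
(D''.P'_j)(E3 + m_j E1) = (D.P'_j)(E1 + m_j⁻¹ E3), P''_k = (D.P''_k)(E1 + n_k E2) =
(D'.P''_k)(E2 + n_k⁻¹ E1).  AFF for (T,T') with O = E3, V = E2, V' = E1; (T',T'') with O = E1, V = E3,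
V' = E2; (T'',T) with O = E2, V = E1, V' = E3.  So l satisfies e1^2 = 3 e2 and so does l⁻¹
(e2^2 = 3 e1 e3), and l is injective: e1 not 0 would give e2 = e1^2/3, e3 = e1^3/27, all l_i =
e1/3; so e1 = e2 = 0, l_i^3 = L1; the same for m (L2), n (L3).  AFF also gives r1, r2, r3:
B_i(E3) = r1 l_i, B'_j(E3) = -r1/m_j, B'_j(E1) = r2 m_j, B''_k(E1) = -r2/n_k, B''_k(E2) = r3 n_k,
B_i(E2) = -r3/l_i.  B_i.P_i = 0: r3 = r1 L1; r1 = r2 L2; r2 = r3 L3; so L1 L2 L3 = 1.
Now x = D.X, y = D'.X, z = D''.X; m1, m2, m3 = the m at j1, j2, j3, etc.: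
y = n1 (x - m1 z) = n2 (x - m2 z), x + l m3 y - m3 z = 0.  m1+m2+m3 = 0, m1^2+m1m2+m2^2 = 0,
n1^2+n1n2+n2^2 = 0 (n1, n2 distinct), so (m1 n2 - m2 n1)(m1 n1 - m2 n2) = 0.  If m1 n1 = m2 n2: x = 0,
y = -m1 n1 z, l y = z, so z = 0 (then X = 0) or l m1 n1 = -1, cube: L1 L2 L3 = -1.  If
m1 n2 = m2 n1: x = -m3 z, y = n1 m2 z, z(l n1 m2 - 2) = 0, z = 0 gives X = 0, l n1 m2 = 2 has cube 8. -/
def SpecTRI : Prop := ∀ (P B : Fin 3 → V3) (D : V3) (P' B' : Fin 3 → V3) (D' : V3)
  (P'' B'' : Fin 3 → V3) (D'' : V3), TT P B D → TT P' B' D' → TT P'' B'' D'' →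
  RR P B D P' B' D' → RR P B D P'' B'' D'' → RR P' B' D' P'' B'' D'' →
  ∀ (X : V3) (i j1 j2 j3 k1 k2 : Fin 3) (s1 t1 s2 t2 s3 t3 : ℂ), X ≠ 0 →
    j1 ≠ j2 → j1 ≠ j3 → j2 ≠ j3 → k1 ≠ k2 →
    X = s1 • P' j1 + t1 • P'' k1 → X = s2 • P' j2 + t2 • P'' k2 → X = s3 • P' j3 + t3 • P i → False

/-- NIN, nine points are impossible.  Proof: write the nine indices as three triples T, T', T''
(TRP).  For e in E let X = (1, e, 0).  If m_ij = e then X = s P_i + t P_j (s = -1/(x_j-x_i), t = -s).  For
each e the pairs {i,j} of indices in different triples with m_ij = e are pairwise disjoint (TRP: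
a point sees only the slope of its own triple twice), so at most 3 of them join T and T' (and so on
for the other two kinds).  If two of them join T_a and T_b, then by TRI (all orders of the three
triples; RR is symmetric) none joins T_a or T_b to the third triple: so either all are of one kind, at
most 3, or there is at most one of each kind, at most 3.  The 27 pairs between different triples
have their slopes in E, card E = 8: 27 at most 24, absurd. -/
def SpecNIN : Prop := ∀ (ι : Type) [Fintype ι] (x y τ : ι → ℂ) (E : Finset ℂ), Sys2 x y τ E →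
  Fintype.card ι ≠ 9

/-- SIX.  Proof: TRP: the index set is a disjoint union of triples; card at least 4, so there are
two; if the card is not 6 there is a third one, disjoint from them, card at least 9; not 9 by NIN;
so a fourth one: VEC and FOR give a contradiction. -/
def SpecSIX : Prop := ∀ (ι : Type) [Fintype ι] (x y τ : ι → ℂ) (E : Finset ℂ), Sys2 x y τ E →
  Fintype.card ι = 6

/-- the conclusion of the analytic part -/
def Concl2 {ι : Type} (x y : ι → ℂ) (E : Finset ℂ) : Prop :=
  ∃ a1 b1 c1 a2 b2 c2 : ℂ, a1 * b2 - a2 * b1 ≠ 0 ∧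
    (∀ i, ∃ ζ : ℂ, ζ ^ 3 = 1 ∧
      ((a1 * x i + b1 * y i + c1 = - ζ ∧ a2 * x i + b2 * y i + c2 = 0) ∨
       (a1 * x i + b1 * y i + c1 = 0 ∧ a2 * x i + b2 * y i + c2 = - ζ))) ∧
    ∀ σ ∈ E, a1 + b1 * σ = 0 ∨ a2 + b2 * σ = 0 ∨
      ∃ ω : ℂ, ω ^ 3 = 1 ∧ a2 + b2 * σ = - ω * (a1 + b1 * σ)

/-- SFN, six points.  Proof: two triples T (slope d), T' (slope d'), card E = 5.  Chords between T
and T' have slopes other than d, d' and from each point the three are distinct (TRP).
(a) d = d': the lines are parallel, y = d x + h and y = d x + h', h not h'; the slope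
of the chord is d + (h'-h)/(x_j - x_i), so the differences x_j - x_i (i in T, j in T') take at most 4
values, each at most 3 times; no two values v, v' are taken 3 times (T + v = T' = T + v' as sets of
x-coordinates, so the sums give v = v'); 9 = 3+2+2+2 is the only possibility; so T' = T + v for some v
and the six differences of two different points of T take exactly three values, each exactly
twice; but this multiset is closed under negation and the values are nonzero: the set of its
values, closed under a fixed point free involution, has even cardinality.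
(b) d, d' distinct: u = y - d' x - h' vanishes on T', v = y - d x - h on T, u_i, v_j not 0 for i in T,
j in T'; the slope e of the chord satisfies (d e-form) (v_j)(e - d') = -(u_i)(e - d), i.e.
(e - d)/(e - d') = -v_j/u_i; the three slopes of the chords at i fill E minus {d,d'} (3 elements), so
the product over j of -v_j/u_i does not depend on i: u_i^3 = U; likewise v_j^3 = W.  Take cube
roots k, l of -1/U, -1/W: the forms k u and l v; direction (1,e): k(e - d'), l(e - d). -/
def SpecSFN : Prop := ∀ (ι : Type) [Fintype ι] (x y τ : ι → ℂ) (E : Finset ℂ), Sys2 x y τ E →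
  Fintype.card ι = 6 → Concl2 x y E

/-- the combinatorial content of 2 t_2 = s + 1 -/
structure Eqd (A : Finset V3) (p : V3) (t : V3 → V3) : Prop where
  four : 4 ≤ (Aq A p).card
  card : (Ap A p).card + 1 = (Aq A p).card
  mem : ∀ a ∈ Aq A p, t a ∈ Ap A p
  tang : ∀ a ∈ Aq A p, ∀ b ∈ Aq A p, b ≠ a → LinearIndependent ℂ ![a, t a, b]
  cover : ∀ a ∈ Aq A p, ∀ c ∈ Ap A p, c ≠ t a → ∃ b ∈ Aq A p, b ≠ a ∧
    ¬ LinearIndependent ℂ ![a, c, b]

/-- CNS.  Proof: as EQ/CNT.lean.  m, k = numbers of lines through and off p.  (i) Twice the sum over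
a in Aq of card (good a) is at most card Fn = m + k + 1, and at most card Fn - 2 if m = 2 (the pairs
(c1,c2), (c2,c1) of the lines through p); (ii) 1 is at most card (good a), and m + 1 at most
card (good a) + k; (iii) card Fn is even: Prod.swap is an involution of Fn without fixed points
(Fn is the disjoint union of Fn.filter (x.1.p not 0, x.2.p = 0), its image under Prod.swap, and
the pairs of two lines through p, which are none if m is at least 3 and (c1,c2), (c2,c1) or none if
m = 2; two lines off p are never in Fn by Mod.m).  Now: m = k + d, d positive: 2k(d+1) at most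
2k+d+1, so k = d = 1, m = 2, and then 4 + 2 at most 4, absurd.  So m is at most k, and 2k at most
m+k+1, so k = m or k = m+1; k = m is impossible by (iii), m + k + 1 being odd.  k = m+1: 2k at most
twice the sum at most 2k (2k - 2 if m = 2, so m is at least 3), all card (good a) = 1.
t a = the element of good a; cover = c is not in good a. -/
def SpecCNS : Prop := ∀ (A : Finset V3) (p : V3), Arr A → Mod A p →
  (Fn A).card = A.card + 1 → ∃ t : V3 → V3, Eqd A p t

/-- CRS.  Proof: as EQ/CRD.lean, with the cover property: for c in Ap other than t a the b of Eqd.cover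
has vv p a b proportional to c (`MPss.vv_prop`), so the chord slope is f1 c / f0 c. -/
def SpecCRS : Prop := ∀ (A : Finset V3) (p : V3) (t : V3 → V3), Arr A → Mod A p → Eqd A p t →
  ∃ (f0 f1 : V3 →ₗ[ℂ] ℂ) (τ : {a // a ∈ Aq A p} → ℂ) (E : Finset ℂ),
    (∀ w : V3, f0 w = 0 → f1 w = 0 → dotProduct w p = 0 → w = 0) ∧
    Sys2 (fun a : {a // a ∈ Aq A p} => f0 a.1 / dotProduct a.1 p)
      (fun a : {a // a ∈ Aq A p} => f1 a.1 / dotProduct a.1 p) τ E ∧
    ∀ c ∈ Ap A p, f0 c ≠ 0 ∧ f1 c / f0 c ∈ E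

/-- the standard form: x = 0, y = 0, x = z y, t = z x, t = z y (z^3 = 1) -/
def Std2 (A : Finset V3) : Prop := A.card = 11 ∧
  ∃ M : V3 ≃ₗ[ℂ] V3, ∀ a ∈ A, ∃ ζ : ℂ, ζ ^ 3 = 1 ∧ ∃ c : ℂ, c ≠ 0 ∧
    (M a = c • ![1, 0, 0] ∨ M a = c • ![0, 1, 0] ∨ M a = c • ![1, -ζ, 0] ∨
      M a = c • ![-ζ, 0, 1] ∨ M a = c • ![0, -ζ, 1])

/-- FWS: from CNS, CRS, SIX, SFN as EQ/FWD.lean. -/
def SpecFWS : Prop := ∀ (A : Finset V3) (p : V3), Arr A → Mod A p →
  (Fn A).card = A.card + 1 → Std2 A

/-- BKS.  Proof: as EQ/BCK.lean.  There are 11 possible directions (up to scalars) for M a and A has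
11 pairwise independent elements, so each occurs exactly once.  L = the elements with nonzero
third coordinate (6).  A pair in Fn has exactly one entry in L: two of L of the same kind,
(-z,0,1), (-w,0,1), are dependent with (1,0,0), (0,-z,1), (0,-w,1) with (0,1,0), (-z,0,1), (0,-w,1) with
(1,-w/z,0); two elements not in L are dependent with a third one (there are 5).  A pair
(a, b), a in L, b not in L, in Fn: a = (-z,0,1), b = (1,0,0) is dependent with another (-w,0,1);
b = (1,-o,0) with (0,-z o,1); so b = (0,1,0); likewise a = (0,-z,1) forces b = (1,0,0).  So the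
pairs with first entry in L inject into L, those with second entry in L too: card Fn at most 12.
Moreover card Fn is even (Prod.swap exchanges the two kinds) and at least card A = 11
(`MPss.main`), so it is 12. -/
def SpecBKS : Prop := ∀ (A : Finset V3) (p : V3), Arr A → Mod A p → Std2 A →
  (Fn A).card = A.card + 1

end Pool.Agent.Lib.MP_70c3c6_co.OD
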