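import Pool.Agent.Lib.MP_70c3c6_co.OD.Spec

/-!
MP_70c3c6_co, module TRI of the hive OD: three triples, there is no direction which joins two pairs
of the same kind and one pair of another kind.
-/

set_option autoImplicit false
open Classical

namespace Pool.Agent.Lib.MP_70c3c6_co.OD

open Pool.Agent.Lib.MP_70c3c6_co.EQ

namespace TRIM

/-- both a triple and its inverses are equianharmonic: `e1 = e2 = 0` -/
theorem cub (a b c : ℂ) (ha : a ≠ 0) (hb : b ≠ 0) (hc : c ≠ 0) (hab : a ≠ b)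
    (h1 : a * b + a * c + b * c = a ^ 2 + b ^ 2 + c ^ 2)
    (h2 : a⁻¹ * b⁻¹ + a⁻¹ * c⁻¹ + b⁻¹ * c⁻¹ = a⁻¹ ^ 2 + b⁻¹ ^ 2 + c⁻¹ ^ 2) :
    a + b + c = 0 ∧ a * b + a * c + b * c = 0 := by
  have e1 : (a⁻¹ * b⁻¹ + a⁻¹ * c⁻¹ + b⁻¹ * c⁻¹) * (a * b * c) ^ 2 = (a + b + c) * (a * b * c) := by
    field_simp
    ring
  have e2 : (a⁻¹ ^ 2 + b⁻¹ ^ 2 + c⁻¹ ^ 2) * (a * b * c) ^ 2 =
      (b * c) ^ 2 + (a * c) ^ 2 + (a * b) ^ 2 := by
    field_simp
  have H2 : (a * b + a * c + b * c) ^ 2 = 3 * (a + b + c) * (a * b * c) := by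
    rw [h2, e2] at e1
    linear_combination e1
  have H1 : (a + b + c) ^ 2 = 3 * (a * b + a * c + b * c) := by
    linear_combination (-1 : ℂ) * h1
  have h0 : a + b + c = 0 := by
    by_contra hne
    have h3 : 27 * (a * b * c) - (a + b + c) ^ 3 = 0 := by
      have : (a + b + c) * (27 * (a * b * c) - (a + b + c) ^ 3) = 0 := by
        linear_combination (-9 : ℂ) * H2 -
          (3 * (a * b + a * c + b * c) + (a + b + c) ^ 2) * H1
      rcases mul_eq_zero.1 this with h | h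
      · exact absurd h hne
      · exact h
    have k1 : (3 * a - (a + b + c)) ^ 3 = 0 := by
      linear_combination h3 + 9 * a * H1
    have k2 : (3 * b - (a + b + c)) ^ 3 = 0 := by
      linear_combination h3 + 9 * b * H1
    have k1' := pow_eq_zero_iff (n := 3) (by norm_num) |>.1 k1
    have k2' := pow_eq_zero_iff (n := 3) (by norm_num) |>.1 k2
    apply hab
    linear_combination (k1' - k2') / 3
  refine ⟨h0, ?_⟩
  rw [h0] at H1
  linear_combination (-1 / 3 : ℂ) * H1

/-- the final algebra -/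
theorem fin (x y z l m1 m2 m3 n1 n2 L1 L2 L3 : ℂ) (hl : l ^ 3 = L1) (hm1 : m1 ^ 3 = L2)
    (hm2 : m2 ^ 3 = L2) (hn1 : n1 ^ 3 = L3) (hL : L1 * L2 * L3 = 1) (hm3 : m3 ≠ 0)
    (hs : m1 + m2 + m3 = 0) (hq : m1 ^ 2 + m1 * m2 + m2 ^ 2 = 0)
    (hn : n1 ^ 2 + n1 * n2 + n2 ^ 2 = 0) (hn12 : n1 ≠ n2)
    (h1 : y = n1 * (x - m1 * z)) (h2 : y = n2 * (x - m2 * z)) (h3 : x = m3 * (z - l * y)) :
    x = 0 ∧ y = 0 ∧ z = 0 := by
  have hp : (m1 * n2 - m2 * n1) * (m1 * n1 - m2 * n2) = 0 := by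
    linear_combination n1 * n2 * hq - m1 * m2 * hn
  have hd : n1 - n2 ≠ 0 := sub_ne_zero.2 hn12
  have h12 : (n1 - n2) * x = (n1 * m1 - n2 * m2) * z := by
    linear_combination h2 - h1
  rcases mul_eq_zero.1 hp with h | h
  · -- m1 n2 = m2 n1
    have hx : x = - m3 * z := by
      have : (n1 - n2) * (x + m3 * z) = 0 := by
        linear_combination h12 + z * h + (n1 - n2) * z * hs
      rcases mul_eq_zero.1 this with h' | h'
      · exact absurd h' hd
      · linear_combination h'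
    have hy : y = n1 * m2 * z := by
      rw [h1, hx]
      linear_combination (-n1 * z) * hs
    have hz : z * (l * n1 * m2 - 2) = 0 := by
      have : m3 * (z * (l * n1 * m2 - 2)) = 0 := by
        rw [hx, hy] at h3
        linear_combination h3
      rcases mul_eq_zero.1 this with h' | h'
      · exact absurd h' hm3
      · exact h'
    rcases mul_eq_zero.1 hz with h' | h'
    · subst h'
      exact ⟨by rw [hx]; ring, by rw [hy]; ring, rfl⟩
    · exfalso
      have h8 : (l * n1 * m2) ^ 3 = 8 := by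
        have : l * n1 * m2 = 2 := by linear_combination h'
        rw [this]; norm_num
      have h9 : (l * n1 * m2) ^ 3 = 1 := by
        rw [mul_pow, mul_pow, hl, hn1, hm2, ← hL]; ring
      rw [h8] at h9
      norm_num at h9
  · -- m1 n1 = m2 n2
    have hx : x = 0 := by
      have : (n1 - n2) * x = 0 := by
        linear_combination h12 + z * h
      rcases mul_eq_zero.1 this with h' | h'
      · exact absurd h' hd
      · exact h'
    have hy : y = - (m1 * n1) * z := by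
      rw [h1, hx]; ring
    have hz : z * (1 + l * m1 * n1) = 0 := by
      have : m3 * (z * (1 + l * m1 * n1)) = 0 := by
        rw [hx, hy] at h3
        linear_combination (-1 : ℂ) * h3
      rcases mul_eq_zero.1 this with h' | h'
      · exact absurd h' hm3
      · exact h'
    rcases mul_eq_zero.1 hz with h' | h'
    · subst h'
      exact ⟨hx, by rw [hy]; ring, rfl⟩
    · exfalso
      have h8 : (l * m1 * n1) ^ 3 = -1 := by
        have : l * m1 * n1 = -1 := by linear_combination h'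
        rw [this]; norm_num
      have h9 : (l * m1 * n1) ^ 3 = 1 := by
        rw [mul_pow, mul_pow, hl, hn1, hm1, ← hL]
      rw [h8] at h9
      norm_num at h9

theorem rr_symm {P B : Fin 3 → V3} {D : V3} {P' B' : Fin 3 → V3} {D' : V3}
    (h : RR P B D P' B' D') : RR P' B' D' P B D := by
  intro i j
  obtain ⟨h1, h2, h3⟩ := h j i
  exact ⟨h2, h1, by rw [add_comm]; exact h3⟩

/-- the dual basis -/
theorem basis (hCNX : SpecCNX) {P B : Fin 3 → V3} {D : V3} {P' B' : Fin 3 → V3} {D' : V3}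
    {P'' B'' : Fin 3 → V3} {D'' : V3} (hT : TT P B D) (hT' : TT P' B' D') (hT'' : TT P'' B'' D'')
    (hR : RR P B D P' B' D') (hR' : RR P B D P'' B'' D'') (hR'' : RR P' B' D' P'' B'' D'') :
    ∃ E1 E2 E3 : V3, (dotProduct D E1 = 1 ∧ dotProduct D' E1 = 0 ∧ dotProduct D'' E1 = 0) ∧
      (dotProduct D E2 = 0 ∧ dotProduct D' E2 = 1 ∧ dotProduct D'' E2 = 0) ∧
      (dotProduct D E3 = 0 ∧ dotProduct D' E3 = 0 ∧ dotProduct D'' E3 = 1) ∧
      ∀ X : V3, X = dotProduct D X • E1 + dotProduct D' X • E2 + dotProduct D'' X • E3 := by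
  set M : Matrix (Fin 3) (Fin 3) ℂ := Matrix.of ![D, D', D''] with hM
  have hdet : M.det ≠ 0 := by
    intro h0
    obtain ⟨c, hc, hcM⟩ := Matrix.exists_vecMul_eq_zero_iff.2 h0
    have hX : ∀ X : V3, c 0 * dotProduct D X + c 1 * dotProduct D' X + c 2 * dotProduct D'' X = 0 := by
      intro X
      have h1 : dotProduct (Matrix.vecMul c M) X = 0 := by rw [hcM]; simp
      have h2 : dotProduct (Matrix.vecMul c M) X = dotProduct c (Matrix.mulVec M X) := by
        rw [Matrix.dotProduct_mulVec]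
      rw [h2] at h1
      simpa [dotProduct, Matrix.mulVec, Fin.sum_univ_three, hM] using h1
    have a1 := hX (P 0)
    have a2 := hX (P' 0)
    rw [hT.DP 0] at a1
    rw [hT'.DP 0] at a2
    obtain ⟨b1, b2, -⟩ := hR 0 0
    obtain ⟨b3, b4, -⟩ := hR' 0 0
    obtain ⟨b5, b6, -⟩ := hR'' 0 0
    by_cases hc2 : c 2 = 0
    · rw [hc2] at a1 a2
      have c1 : c 1 = 0 := by
        rcases mul_eq_zero.1 (show c 1 * dotProduct D' (P 0) = 0 by linear_combination a1) with h | h
        · exact h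
        · exact absurd h b1
      have c0 : c 0 = 0 := by
        rcases mul_eq_zero.1 (show c 0 * dotProduct D (P' 0) = 0 by linear_combination a2) with h | h
        · exact h
        · exact absurd h b2
      apply hc
      funext i
      fin_cases i
      · exact c0
      · exact c1
      · exact hc2
    · have c1 : c 1 ≠ 0 := by
        intro h
        rw [h] at a1
        rcases mul_eq_zero.1 (show c 2 * dotProduct D'' (P 0) = 0 by linear_combination a1) with h | h
        · exact hc2 h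
        · exact b3 h
      have c0 : c 0 ≠ 0 := by
        intro h
        rw [h] at a2
        rcases mul_eq_zero.1 (show c 2 * dotProduct D'' (P' 0) = 0 by linear_combination a2) with h | h
        · exact hc2 h
        · exact b5 h
      refine hCNX P B D P' B' D' P'' B'' D'' hT hT' hT'' hR hR' (- c 0 / c 2) (- c 1 / c 2)
        (div_ne_zero (neg_ne_zero.2 c0) hc2) (div_ne_zero (neg_ne_zero.2 c1) hc2) ?_
      funext i
      have hi := hX (Pi.single i 1)
      simp only [dotProduct_single_one] at hi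
      simp only [Pi.add_apply, Pi.smul_apply, smul_eq_mul]
      field_simp
      linear_combination hi
  have hu : IsUnit M.det := isUnit_iff_ne_zero.2 hdet
  have hMN : M * M⁻¹ = 1 := Matrix.mul_nonsing_inv M hu
  have hNM : M⁻¹ * M = 1 := Matrix.nonsing_inv_mul M hu
  have e : ∀ i j, dotProduct (M i) (fun k => M⁻¹ k j) = (1 : Matrix (Fin 3) (Fin 3) ℂ) i j := by
    intro i j
    rw [← hMN, Matrix.mul_apply]
    rfl
  refine ⟨fun k => M⁻¹ k 0, fun k => M⁻¹ k 1, fun k => M⁻¹ k 2, ⟨?_, ?_, ?_⟩, ⟨?_, ?_, ?_⟩,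
    ⟨?_, ?_, ?_⟩, ?_⟩
  · exact (e 0 0).trans (by simp)
  · exact (e 1 0).trans (by simp)
  · exact (e 2 0).trans (by simp)
  · exact (e 0 1).trans (by simp)
  · exact (e 1 1).trans (by simp)
  · exact (e 2 1).trans (by simp)
  · exact (e 0 2).trans (by simp)
  · exact (e 1 2).trans (by simp)
  · exact (e 2 2).trans (by simp)
  · intro X
    have h1 : Matrix.mulVec M⁻¹ (Matrix.mulVec M X) = X := by
      rw [Matrix.mulVec_mulVec, hNM, Matrix.one_mulVec]
    funext k
    have h2 := congrFun h1 k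
    rw [← h2]
    simp only [Matrix.mulVec, dotProduct, Fin.sum_univ_three, Pi.add_apply, Pi.smul_apply,
      smul_eq_mul, hM, Matrix.of_apply, Matrix.cons_val_zero, Matrix.cons_val_one]
    simp
    ring

/-- the sum of three numbers with distinct indices -/
theorem third {m : Fin 3 → ℂ} (h1 : m 0 + m 1 + m 2 = 0)
    (h2 : m 0 * m 1 + m 0 * m 2 + m 1 * m 2 = 0) (a b : Fin 3) (hab : a ≠ b) :
    m a ^ 2 + m a * m b + m b ^ 2 = 0 := by
  fin_cases a <;> fin_cases b <;> simp at hab ⊢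
  · linear_combination (m 0 + m 1) * h1 - h2
  · linear_combination (m 0 + m 2) * h1 - h2
  · linear_combination (m 0 + m 1) * h1 - h2
  · linear_combination (m 1 + m 2) * h1 - h2
  · linear_combination (m 0 + m 2) * h1 - h2
  · linear_combination (m 1 + m 2) * h1 - h2

theorem sum3 {m : Fin 3 → ℂ} (h1 : m 0 + m 1 + m 2 = 0) (a b c : Fin 3) (hab : a ≠ b)
    (hac : a ≠ c) (hbc : b ≠ c) : m a + m b + m c = 0 := by
  fin_cases a <;> fin_cases b <;> fin_cases c <;> simp at hab hac hbc ⊢ <;> linear_combination h1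

theorem cube {m : Fin 3 → ℂ} (h1 : m 0 + m 1 + m 2 = 0)
    (h2 : m 0 * m 1 + m 0 * m 2 + m 1 * m 2 = 0) (a : Fin 3) : m a ^ 3 = m 0 * m 1 * m 2 := by
  fin_cases a <;> simp
  · linear_combination (m 0) ^ 2 * h1 - (m 0) * h2
  · linear_combination (m 1) ^ 2 * h1 - (m 1) * h2
  · linear_combination (m 2) ^ 2 * h1 - (m 2) * h2

end TRIM

open TRIM in
theorem specTRI (hAFF : SpecAFF) (hCNX : SpecCNX) : SpecTRI := by
  intro P B D P' B' D' P'' B'' D'' hT hT' hT'' hR hR' hR'' X i j1 j2 j3 k1 k2 s1 t1 s2 t2 s3 t3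
    hX hj12 hj13 hj23 hk12 hX1 hX2 hX3
  obtain ⟨E1, E2, E3, ⟨d11, d21, d31⟩, ⟨d12, d22, d32⟩, ⟨d13, d23, d33⟩, hE⟩ :=
    basis hCNX hT hT' hT'' hR hR' hR''
  have hE1 : E1 ≠ 0 := by rintro rfl; simp at d11
  have hE2 : E2 ≠ 0 := by rintro rfl; simp at d22
  have hE3 : E3 ≠ 0 := by rintro rfl; simp at d33
  -- the nonzero coordinates
  have pD : ∀ i, dotProduct D (P i) = 0 := hT.DP
  have pD' : ∀ i, dotProduct D' (P i) ≠ 0 := fun i => (hR i 0).1
  have pD'' : ∀ i, dotProduct D'' (P i) ≠ 0 := fun i => (hR' i 0).1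
  have qD' : ∀ i, dotProduct D' (P' i) = 0 := hT'.DP
  have qD : ∀ i, dotProduct D (P' i) ≠ 0 := fun i => (hR 0 i).2.1
  have qD'' : ∀ i, dotProduct D'' (P' i) ≠ 0 := fun i => (hR'' i 0).1
  have rD'' : ∀ i, dotProduct D'' (P'' i) = 0 := hT''.DP
  have rD : ∀ i, dotProduct D (P'' i) ≠ 0 := fun i => (hR' 0 i).2.1
  have rD' : ∀ i, dotProduct D' (P'' i) ≠ 0 := fun i => (hR'' 0 i).2.1
  set l : Fin 3 → ℂ := fun i => dotProduct D'' (P i) / dotProduct D' (P i) with hl
  set m : Fin 3 → ℂ := fun i => dotProduct D (P' i) / dotProduct D'' (P' i) with hm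
  set n : Fin 3 → ℂ := fun i => dotProduct D' (P'' i) / dotProduct D (P'' i) with hn
  have l0 : ∀ i, l i ≠ 0 := fun i => div_ne_zero (pD'' i) (pD' i)
  have m0 : ∀ i, m i ≠ 0 := fun i => div_ne_zero (qD i) (qD'' i)
  have n0 : ∀ i, n i ≠ 0 := fun i => div_ne_zero (rD' i) (rD i)
  have lP : ∀ i, dotProduct D'' (P i) = l i * dotProduct D' (P i) := fun i => by
    simp only [hl]; rw [div_mul_cancel₀ _ (pD' i)]
  have mP : ∀ i, dotProduct D (P' i) = m i * dotProduct D'' (P' i) := fun i => by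
    simp only [hm]; rw [div_mul_cancel₀ _ (qD'' i)]
  have nP : ∀ i, dotProduct D' (P'' i) = n i * dotProduct D (P'' i) := fun i => by
    simp only [hn]; rw [div_mul_cancel₀ _ (rD i)]
  -- the three parametrisations, each in two ways
  have P1 : ∀ i, P i = dotProduct D' (P i) • (E2 + l i • E3) := fun i => by
    conv_lhs => rw [hE (P i), pD i, lP i]
    rw [zero_smul, zero_add, smul_add, smul_smul, mul_comm (l i)]
  have P2 : ∀ i, P i = dotProduct D'' (P i) • (E3 + (l i)⁻¹ • E2) := fun i => by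
    have h : dotProduct D' (P i) = dotProduct D'' (P i) * (l i)⁻¹ := by
      rw [lP i]; field_simp [l0 i]
    conv_lhs => rw [hE (P i), pD i, h]
    rw [zero_smul, zero_add, smul_add, smul_smul, add_comm]
  have Q1 : ∀ i, P' i = dotProduct D'' (P' i) • (E3 + m i • E1) := fun i => by
    conv_lhs => rw [hE (P' i), qD' i, mP i]
    rw [zero_smul, add_zero, smul_add, smul_smul, mul_comm (m i), add_comm]
  have Q2 : ∀ i, P' i = dotProduct D (P' i) • (E1 + (m i)⁻¹ • E3) := fun i => by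
    have h : dotProduct D'' (P' i) = dotProduct D (P' i) * (m i)⁻¹ := by
      rw [mP i]; field_simp [m0 i]
    conv_lhs => rw [hE (P' i), qD' i, h]
    rw [zero_smul, add_zero, smul_add, smul_smul]
  have R1 : ∀ i, P'' i = dotProduct D (P'' i) • (E1 + n i • E2) := fun i => by
    conv_lhs => rw [hE (P'' i), rD'' i, nP i]
    rw [zero_smul, add_zero, smul_add, smul_smul, mul_comm (n i)]
  have R2 : ∀ i, P'' i = dotProduct D' (P'' i) • (E2 + (n i)⁻¹ • E1) := fun i => by
    have h : dotProduct D (P'' i) = dotProduct D' (P'' i) * (n i)⁻¹ := by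
      rw [nP i]; field_simp [n0 i]
    conv_lhs => rw [hE (P'' i), rD'' i, h]
    rw [zero_smul, add_zero, smul_add, smul_smul, add_comm]
  obtain ⟨li, -, le, mie, r1, r10, b1, b1'⟩ :=
    hAFF P B D P' B' D' hT hT' hR E3 E2 E1 l (fun i => (m i)⁻¹) hE3 d13 d23 P1 Q2
  obtain ⟨mi, -, me, nie, r2, r20, b2, b2'⟩ :=
    hAFF P' B' D' P'' B'' D'' hT' hT'' hR'' E1 E3 E2 m (fun i => (n i)⁻¹) hE1 d21 d31 Q1 R2
  obtain ⟨ni, -, ne, lie, r3, r30, b3, b3'⟩ :=
    hAFF P'' B'' D'' P B D hT'' hT (rr_symm hR') E2 E1 E3 n (fun i => (l i)⁻¹) hE2 d32 d12 R1 P2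
  obtain ⟨ls, lt⟩ := cub (l 0) (l 1) (l 2) (l0 0) (l0 1) (l0 2)
    (fun h => absurd (li h) (by decide)) le lie
  obtain ⟨ms, mt⟩ := cub (m 0) (m 1) (m 2) (m0 0) (m0 1) (m0 2)
    (fun h => absurd (mi h) (by decide)) me mie
  obtain ⟨ns, nt⟩ := cub (n 0) (n 1) (n 2) (n0 0) (n0 1) (n0 2)
    (fun h => absurd (ni h) (by decide)) ne nie
  have inv0 : ∀ a b c : ℂ, a ≠ 0 → b ≠ 0 → c ≠ 0 → a * b + a * c + b * c = 0 →
      a⁻¹ + b⁻¹ + c⁻¹ = 0 := by
    intro a b c ha hb hc h
    have : (a⁻¹ + b⁻¹ + c⁻¹) * (a * b * c) = 0 := by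
      rw [← h]; field_simp; ring
    rcases mul_eq_zero.1 this with h' | h'
    · exact h'
    · exact absurd h' (mul_ne_zero (mul_ne_zero ha hb) hc)
  have lis := inv0 _ _ _ (l0 0) (l0 1) (l0 2) lt
  have mis := inv0 _ _ _ (m0 0) (m0 1) (m0 2) mt
  have nis := inv0 _ _ _ (n0 0) (n0 1) (n0 2) nt
  have hL1 := cube ls lt
  have hL2 := cube ms mt
  have hL3 := cube ns nt
  -- the cubes have product one
  have c1 : r3 = r1 * l 0 ^ 3 := by
    have h := hT.BP 0
    rw [P1 0, dotProduct_smul, dotProduct_add, dotProduct_smul, smul_eq_mul, smul_eq_mul,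
      b1 0, b3' 0, ls, lis] at h
    rcases mul_eq_zero.1 h with h' | h'
    · exact absurd h' (pD' 0)
    · have h2 : (- r3 * ((l 0)⁻¹ - 0 / 3) + l 0 * (r1 * (l 0 - 0 / 3))) * l 0 = 0 := by
        rw [h', zero_mul]
      have h3 : (l 0)⁻¹ * l 0 = 1 := inv_mul_cancel₀ (l0 0)
      linear_combination (-1 : ℂ) * h2 - r3 * h3
  have c2 : r1 = r2 * m 0 ^ 3 := by
    have h := hT'.BP 0
    rw [Q1 0, dotProduct_smul, dotProduct_add, dotProduct_smul, smul_eq_mul, smul_eq_mul,
      b2 0, b1' 0, ms, mis] at h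
    rcases mul_eq_zero.1 h with h' | h'
    · exact absurd h' (qD'' 0)
    · have h2 : (- r1 * ((m 0)⁻¹ - 0 / 3) + m 0 * (r2 * (m 0 - 0 / 3))) * m 0 = 0 := by
        rw [h', zero_mul]
      have h3 : (m 0)⁻¹ * m 0 = 1 := inv_mul_cancel₀ (m0 0)
      linear_combination (-1 : ℂ) * h2 - r1 * h3
  have c3 : r2 = r3 * n 0 ^ 3 := by
    have h := hT''.BP 0
    rw [R1 0, dotProduct_smul, dotProduct_add, dotProduct_smul, smul_eq_mul, smul_eq_mul,
      b3 0, b2' 0, ns, nis] at h
    rcases mul_eq_zero.1 h with h' | h'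
    · exact absurd h' (rD 0)
    · have h2 : (- r2 * ((n 0)⁻¹ - 0 / 3) + n 0 * (r3 * (n 0 - 0 / 3))) * n 0 = 0 := by
        rw [h', zero_mul]
      have h3 : (n 0)⁻¹ * n 0 = 1 := inv_mul_cancel₀ (n0 0)
      linear_combination (-1 : ℂ) * h2 - r2 * h3
  have hL : (l 0 * l 1 * l 2) * (m 0 * m 1 * m 2) * (n 0 * n 1 * n 2) = 1 := by
    rw [← hL1 0, ← hL2 0, ← hL3 0]
    have h : r3 * (l 0 ^ 3 * m 0 ^ 3 * n 0 ^ 3) = r3 * 1 := by
      conv_rhs => rw [c1, c2, c3]
      ring
    exact mul_left_cancel₀ r30 h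
  -- the coordinates of X
  have x1 : dotProduct D X = m j1 * dotProduct D'' X + t1 * dotProduct D (P'' k1) := by
    rw [hX1]
    simp only [dotProduct_add, dotProduct_smul, smul_eq_mul, rD'' k1, mP j1]
    ring
  have y1 : dotProduct D' X = t1 * (n k1 * dotProduct D (P'' k1)) := by
    rw [hX1]
    simp only [dotProduct_add, dotProduct_smul, smul_eq_mul, qD' j1, nP k1]
    ring
  have x2 : dotProduct D X = m j2 * dotProduct D'' X + t2 * dotProduct D (P'' k2) := by
    rw [hX2]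
    simp only [dotProduct_add, dotProduct_smul, smul_eq_mul, rD'' k2, mP j2]
    ring
  have y2 : dotProduct D' X = t2 * (n k2 * dotProduct D (P'' k2)) := by
    rw [hX2]
    simp only [dotProduct_add, dotProduct_smul, smul_eq_mul, qD' j2, nP k2]
    ring
  have x3 : dotProduct D X = s3 * (m j3 * dotProduct D'' (P' j3)) := by
    rw [hX3]
    simp only [dotProduct_add, dotProduct_smul, smul_eq_mul, pD i, mP j3]
    ring
  have y3 : dotProduct D' X = t3 * dotProduct D' (P i) := by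
    rw [hX3]
    simp only [dotProduct_add, dotProduct_smul, smul_eq_mul, qD' j3]
    ring
  have z3 : dotProduct D'' X = s3 * dotProduct D'' (P' j3) + t3 * (l i * dotProduct D' (P i)) := by
    rw [hX3]
    simp only [dotProduct_add, dotProduct_smul, smul_eq_mul, lP i]
  obtain ⟨hx, hy, hz⟩ := fin (dotProduct D X) (dotProduct D' X) (dotProduct D'' X) (l i)
    (m j1) (m j2) (m j3) (n k1) (n k2) _ _ _ (hL1 i) (hL2 j1) (hL2 j2) (hL3 k1) hL (m0 j3)
    (sum3 ms j1 j2 j3 hj12 hj13 hj23) (third ms mt j1 j2 hj12) (third ns nt k1 k2 hk12)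
    (fun h => hk12 (ni h)) (by linear_combination y1 - n k1 * x1)
    (by linear_combination y2 - n k2 * x2) (by linear_combination x3 - m j3 * z3 + m j3 * l i * y3)
  apply hX
  rw [hE X, hx, hy, hz]
  simp

end Pool.Agent.Lib.MP_70c3c6_co.OD
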