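import Pool.Agent.Lib.MP_70c3c6_co.OD.Spec

/-!
# Module TRP: the points are partitioned into collinear triples
-/

set_option autoImplicit false
open Classical

namespace Pool.Agent.Lib.MP_70c3c6_co.OD

open Pool.Agent.Lib.MP_70c3c6_co.EQ

namespace TRPM

theorem ms_symm {ι : Type} (x y : ι → ℂ) (i j : ι) : ms x y i j = ms x y j i := by
  unfold ms
  rw [← neg_sub (y i) (y j), ← neg_sub (x i) (x j), neg_div_neg_eq]

theorem ms_mul {ι : Type} {x : ι → ℂ} (hx : Function.Injective x) (y : ι → ℂ) {i j : ι}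
    (h : j ≠ i) : ms x y i j * (x j - x i) = y j - y i := by
  unfold ms
  exact div_mul_cancel₀ _ (sub_ne_zero.2 fun h' => h (hx h'))

theorem rot {ι : Type} {x : ι → ℂ} (hx : Function.Injective x) (y : ι → ℂ) {i j l : ι}
    (h : Tr x y i j l) : Tr x y j i l := by
  obtain ⟨h1, h2, h3, h4⟩ := h
  refine ⟨h1.symm, h3.symm, h2.symm, ?_⟩
  have e1 := ms_mul hx y h1
  have e2 := ms_mul hx y h2
  have e3 := ms_mul hx y (i := j) (j := l) h3.symm
  rw [← h4] at e2
  have hne : x l - x j ≠ 0 := sub_ne_zero.2 fun h' => h3 (hx h').symm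
  apply mul_right_cancel₀ hne
  rw [e3, ← ms_symm x y i j]
  linear_combination e2 - e1

theorem key {ι : Type} [Fintype ι] {x y τ : ι → ℂ} {E : Finset ℂ} (hS : Sys2 x y τ E)
    {i j l s s' : ι} (h : Tr x y i j l) (hsi : s ≠ i) (hsj : s ≠ j) (hsl : s ≠ l)
    (hs'i : s' ≠ i) (hs's : s' ≠ s) (he : ms x y i s = ms x y i s') : False := by
  obtain ⟨h1, h2, h3, h4⟩ := h
  set S : Finset ι := ((Finset.univ.erase i).erase l).erase s with hSd
  have hmemS : ∀ r, r ≠ i → r ≠ l → r ≠ s → r ∈ S := by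
    intro r hi hl hs
    rw [hSd, Finset.mem_erase, Finset.mem_erase, Finset.mem_erase]
    exact ⟨hs, hl, hi, Finset.mem_univ _⟩
  have hsub : E.erase (τ i) ⊆ S.image (ms x y i) := by
    intro e heE
    obtain ⟨hne, heE⟩ := Finset.mem_erase.1 heE
    obtain ⟨r, hri, hre⟩ := hS.cover i e heE hne
    rw [Finset.mem_image]
    by_cases hrl : r = l
    · subst hrl
      exact ⟨j, hmemS j h1 h3 hsj.symm, by rw [h4, hre]⟩
    · by_cases hrs : r = s
      · subst hrs
        by_cases hs'l : s' = l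
        · subst hs'l
          exact ⟨j, hmemS j h1 h3 hsj.symm, by rw [h4, ← he, hre]⟩
        · exact ⟨s', hmemS s' hs'i hs'l hs's, by rw [← he, hre]⟩
      · exact ⟨r, hmemS r hri hrl hrs, hre⟩
  have hc1 : (E.erase (τ i)).card = E.card - 1 := Finset.card_erase_of_mem (hS.tau i)
  have hc2 : S.card = Fintype.card ι - 1 - 1 - 1 := by
    rw [hSd, Finset.card_erase_of_mem, Finset.card_erase_of_mem, Finset.card_erase_of_mem,
      Finset.card_univ]
    · exact Finset.mem_univ _
    · rw [Finset.mem_erase]; exact ⟨h2, Finset.mem_univ _⟩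
    · rw [Finset.mem_erase, Finset.mem_erase]; exact ⟨hsl, hsi, Finset.mem_univ _⟩
  have hc3 := (Finset.card_le_card hsub).trans Finset.card_image_le
  have h5 := hS.card
  have h6 := hS.four
  omega

end TRPM

open TRPM in
theorem specTRP : SpecTRP := by
  intro ι _ x y τ E hS
  refine ⟨?_, ?_, ?_⟩
  · intro i j l h
    exact ⟨⟨h.2.1, h.1, h.2.2.1.symm, h.2.2.2.symm⟩, rot hS.inj y h⟩
  · intro i
    have hcard : (E.erase (τ i)).card < (Finset.univ.erase i).card := by
      rw [Finset.card_erase_of_mem (hS.tau i), Finset.card_erase_of_mem (Finset.mem_univ i),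
        Finset.card_univ]
      have h5 := hS.card
      have h6 := hS.four
      omega
    obtain ⟨j, hj, l, hl, hjl, he⟩ := Finset.exists_ne_map_eq_of_card_lt_of_maps_to hcard
      (f := ms x y i) (fun j hj => by
        have hji : j ≠ i := Finset.ne_of_mem_erase hj
        exact Finset.mem_erase.2 ⟨hS.tang i j hji.symm, hS.chord i j hji.symm⟩)
    exact ⟨j, l, Finset.ne_of_mem_erase hj, Finset.ne_of_mem_erase hl, hjl, he⟩
  · intro i j l j' l' h h'
    obtain ⟨a1, a2, a3, a4⟩ := h'
    by_cases hj'j : j' = j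
    · by_cases hl'l : l' = l
      · exact Or.inl ⟨hj'j, hl'l⟩
      · exfalso
        have hl'j : l' ≠ j := fun h => a3 (hj'j.trans h.symm)
        exact key hS h a2 hl'j hl'l a1 a3 a4.symm
    · by_cases hj'l : j' = l
      · by_cases hl'j : l' = j
        · exact Or.inr ⟨hj'l, hl'j⟩
        · exfalso
          have hl'l : l' ≠ l := fun h => a3 (hj'l.trans h.symm)
          exact key hS h a2 hl'j hl'l a1 a3 a4.symm
      · exfalso
        exact key hS h a1 hj'j hj'l a2 a3.symm a4

end Pool.Agent.Lib.MP_70c3c6_co.OD
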