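import Pool.Agent.Lib.MP_70c3c6_co.OD.Spec

/-!
# Module VEC (helper82)
-/

set_option autoImplicit false
open Classical

namespace Pool.Agent.Lib.MP_70c3c6_co.OD

open Pool.Agent.Lib.MP_70c3c6_co.EQ

namespace VECM

theorem fbpt {ι : Type} (x y τ g : ι → ℂ) (i j : ι) :
    dotProduct (fb x y τ g i) (pt x y j) = g i * ((y j - y i) - τ i * (x j - x i)) := by
  unfold fb pt dotProduct
  rw [Fin.sum_univ_three]
  simp
  ring

theorem fdpt {ι : Type} (x y d : ι → ℂ) (i j : ι) :
    dotProduct (fd x y d i) (pt x y j) = (y j - y i) - d i * (x j - x i) := by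
  unfold fd pt dotProduct
  rw [Fin.sum_univ_three]
  simp
  ring

theorem msym {ι : Type} (x y : ι → ℂ) (i j : ι) : ms x y i j = ms x y j i := by
  unfold ms
  rw [← neg_sub (y i) (y j), ← neg_sub (x i) (x j), neg_div_neg_eq]

theorem ms_mul {ι : Type} {x y : ι → ℂ} {i j : ι} (h : x j - x i ≠ 0) :
    y j - y i = ms x y i j * (x j - x i) := by
  unfold ms
  rw [div_mul_cancel₀ _ h]

theorem others : ∀ a : Fin 3, ∃ b c : Fin 3, a ≠ b ∧ a ≠ c ∧ b ≠ c := by decide

theorem third : ∀ a b : Fin 3, a ≠ b → ∃ c : Fin 3, a ≠ c ∧ b ≠ c := by decide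

/-- a triple of indices -/
structure Trp {ι : Type} (x y : ι → ℂ) (f : Fin 3 → ι) : Prop where
  ne : ∀ a b, a ≠ b → f a ≠ f b
  tr : ∀ a b c, a ≠ b → a ≠ c → b ≠ c → Tr x y (f a) (f b) (f c)

theorem trp_of {ι : Type} {x y : ι → ℂ}
    (t1 : ∀ i j l, Tr x y i j l → Tr x y i l j ∧ Tr x y j i l) {i j l : ι}
    (h : Tr x y i j l) : Trp x y ![i, j, l] := by
  have h1 := (t1 i j l h).1
  have h2 := (t1 i j l h).2
  have h3 := (t1 i l j h1).2
  have h4 := (t1 j i l h2).1
  have h5 := (t1 l i j h3).1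
  constructor
  · intro a b hab
    fin_cases a <;> fin_cases b
    · exact absurd rfl hab
    · exact h.1.symm
    · exact h.2.1.symm
    · exact h.1
    · exact absurd rfl hab
    · exact h.2.2.1
    · exact h.2.1
    · exact h.2.2.1.symm
    · exact absurd rfl hab
  · intro a b c hab hac hbc
    fin_cases a <;> fin_cases b <;> fin_cases c <;>
      first
        | exact absurd rfl hab
        | exact absurd rfl hac
        | exact absurd rfl hbc
        | exact h
        | exact h1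
        | exact h2
        | exact h3
        | exact h4
        | exact h5

theorem main_tt {ι : Type} {x y τ g d : ι → ℂ} (hx : ∀ i j, i ≠ j → x j - x i ≠ 0)
    (hms : ∀ i j, i ≠ j → ms x y i j ≠ τ i) (hg : ∀ i, g i ≠ 0)
    (hd : ∀ i j l, Tr x y i j l → d i = ms x y i j)
    (R2 : ∀ i j l, Tr x y i j l →
      g i * ((y l - y i) - τ i * (x l - x i)) + g j * ((y l - y j) - τ j * (x l - x j)) = 0)
    {f : Fin 3 → ι} (hf : Trp x y f) :
    TT (fun n => pt x y (f n)) (fun n => fb x y τ g (f n)) (fd x y d (f 0)) := by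
  have h01 : x (f 1) - x (f 0) ≠ 0 := hx _ _ (hf.ne 0 1 (by decide))
  have h02 : x (f 2) - x (f 0) ≠ 0 := hx _ _ (hf.ne 0 2 (by decide))
  have h21 : x (f 1) - x (f 2) ≠ 0 := hx _ _ (hf.ne 2 1 (by decide))
  have hdn : ∀ n, n ≠ 0 → d (f 0) = ms x y (f 0) (f n) := by
    intro n hn
    obtain ⟨c, hc1, hc2⟩ := third 0 n (Ne.symm hn)
    exact hd _ _ _ (hf.tr 0 n c (Ne.symm hn) hc1 hc2)
  have hyn : ∀ n, n ≠ 0 → y (f n) - y (f 0) = d (f 0) * (x (f n) - x (f 0)) := by
    intro n hn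
    rw [hdn n hn]
    exact ms_mul (hx _ _ (hf.ne 0 n (Ne.symm hn)))
  refine ⟨?_, ?_, ?_, ?_, ?_, ?_, ?_⟩
  · intro c0 c1 h
    have e0 := congrFun h 0
    have e2 := congrFun h 2
    simp [pt] at e0 e2
    have e3 : c1 * (x (f 1) - x (f 0)) = 0 := by linear_combination e0 - x (f 0) * e2
    rcases mul_eq_zero.1 e3 with h1 | h1
    · rw [h1, add_zero] at e2
      exact ⟨e2, h1⟩
    · exact absurd h1 h01
  · refine ⟨(x (f 1) - x (f 2)) / (x (f 1) - x (f 0)), (x (f 2) - x (f 0)) / (x (f 1) - x (f 0)),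
      div_ne_zero h21 h01, div_ne_zero h02 h01, ?_⟩
    have y1 : y (f 1) = y (f 0) + d (f 0) * (x (f 1) - x (f 0)) := by
      rw [← hyn 1 (by decide)]; ring
    have y2 : y (f 2) = y (f 0) + d (f 0) * (x (f 2) - x (f 0)) := by
      rw [← hyn 2 (by decide)]; ring
    funext n
    fin_cases n
    · simp [pt]
      field_simp
      ring
    · simp [pt]
      rw [y1, y2]
      field_simp
      ring
    · simp [pt]
      field_simp
      ring
  · intro h
    have h1 := congrFun h 1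
    simp [fd] at h1
  · intro n
    rw [fdpt]
    by_cases hn : n = 0
    · rw [hn]; ring
    · rw [hyn n hn]; ring
  · intro n
    rw [fbpt]
    ring
  · intro a b hab
    show dotProduct (fb x y τ g (f a)) (pt x y (f b)) ≠ 0
    rw [fbpt, ms_mul (hx _ _ (hf.ne a b hab))]
    have h1 : ms x y (f a) (f b) * (x (f b) - x (f a)) - τ (f a) * (x (f b) - x (f a)) =
        (ms x y (f a) (f b) - τ (f a)) * (x (f b) - x (f a)) := by ring
    rw [h1]
    exact mul_ne_zero (hg _) (mul_ne_zero (sub_ne_zero.2 (hms _ _ (hf.ne a b hab)))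
      (hx _ _ (hf.ne a b hab)))
  · intro a b c hab hac hbc
    show dotProduct (fb x y τ g (f a)) (pt x y (f c)) +
      dotProduct (fb x y τ g (f b)) (pt x y (f c)) = 0
    rw [fbpt, fbpt]
    exact R2 _ _ _ (hf.tr a b c hab hac hbc)

theorem fd_eq {ι : Type} {x y d : ι → ℂ} (hx : ∀ i j, i ≠ j → x j - x i ≠ 0)
    (hd : ∀ i j l, Tr x y i j l → d i = ms x y i j)
    {f : Fin 3 → ι} (hf : Trp x y f) (n : Fin 3) : fd x y d (f 0) = fd x y d (f n) := by
  by_cases hn : n = 0
  · rw [hn]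
  · obtain ⟨c, hc1, hc2⟩ := third 0 n (Ne.symm hn)
    have h1 := hd _ _ _ (hf.tr 0 n c (Ne.symm hn) hc1 hc2)
    have h2 := hd _ _ _ (hf.tr n 0 c hn hc2 hc1)
    have h3 : d (f n) = d (f 0) := by rw [h1, h2, msym]
    have h4 : y (f n) - y (f 0) = d (f 0) * (x (f n) - x (f 0)) := by
      rw [h1]
      exact ms_mul (hx _ _ (hf.ne 0 n (Ne.symm hn)))
    unfold fd
    rw [h3]
    have h5 : d (f 0) * x (f 0) - y (f 0) = d (f 0) * x (f n) - y (f n) := by
      linear_combination h4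
    rw [h5]

end VECM

open VECM in
theorem specVEC (hTRP : SpecTRP) (hSLQ : SpecSLQ) : SpecVEC := by
  intro ι _ x y τ E hS
  obtain ⟨t1, _, t3⟩ := hTRP ι x y τ E hS
  obtain ⟨g, d, hg, hd, R1, R2⟩ := hSLQ ι x y τ E hS
  have hx : ∀ i j, i ≠ j → x j - x i ≠ 0 := fun i j hij h =>
    hij (hS.inj (sub_eq_zero.1 h)).symm
  have eP : ∀ i j l : ι, (fun n => pt x y ((![i, j, l] : Fin 3 → ι) n)) =
      ![pt x y i, pt x y j, pt x y l] := by
    intro i j l
    funext n
    fin_cases n <;> rfl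
  have eB : ∀ i j l : ι, (fun n => fb x y τ g ((![i, j, l] : Fin 3 → ι) n)) =
      ![fb x y τ g i, fb x y τ g j, fb x y τ g l] := by
    intro i j l
    funext n
    fin_cases n <;> rfl
  refine ⟨g, d, ?_, ?_⟩
  · intro i j l h
    have h1 := main_tt hx hS.tang hg hd R2 (trp_of t1 h)
    rw [eP, eB] at h1
    exact h1
  · intro i j l i' j' l' h h' hi hj hl
    rw [← eP, ← eB, ← eP, ← eB]
    have hf := trp_of t1 h
    have hf' := trp_of t1 h'
    have hne : ∀ a, (![i', j', l'] : Fin 3 → ι) 0 ≠ (![i, j, l] : Fin 3 → ι) a := by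
      intro a
      fin_cases a
      · exact hi
      · exact hj
      · exact hl
    show RR (fun n => pt x y ((![i, j, l] : Fin 3 → ι) n))
      (fun n => fb x y τ g ((![i, j, l] : Fin 3 → ι) n))
      (fd x y d ((![i, j, l] : Fin 3 → ι) 0))
      (fun n => pt x y ((![i', j', l'] : Fin 3 → ι) n))
      (fun n => fb x y τ g ((![i', j', l'] : Fin 3 → ι) n))
      (fd x y d ((![i', j', l'] : Fin 3 → ι) 0))
    generalize (![i, j, l] : Fin 3 → ι) = f at *
    generalize (![i', j', l'] : Fin 3 → ι) = f' at *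
    have hA : ∀ a b, f' b ≠ f a := by
      intro a b hab
      by_cases hb : b = 0
      · rw [hb] at hab
        exact hne a hab
      · obtain ⟨b', hb1, hb2⟩ := third 0 b (Ne.symm hb)
        obtain ⟨c, c', h1, h2, h3⟩ := others a
        have k1 := hf'.tr b 0 b' hb hb2 hb1
        rw [hab] at k1
        rcases t3 _ _ _ _ _ (hf.tr a c c' h1 h2 h3) k1 with ⟨k2, _⟩ | ⟨k2, _⟩
        · exact hne c k2
        · exact hne c' k2
    have hB : ∀ a b l'', ¬ Tr x y (f a) (f' b) l'' := by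
      intro a b l'' k
      obtain ⟨c, c', h1, h2, h3⟩ := others a
      rcases t3 _ _ _ _ _ (hf.tr a c c' h1 h2 h3) k with ⟨k2, _⟩ | ⟨k2, _⟩
      · exact hA c b k2
      · exact hA c' b k2
    intro a b
    have hD : fd x y d (f 0) = fd x y d (f a) := fd_eq hx hd hf a
    have hD' : fd x y d (f' 0) = fd x y d (f' b) := fd_eq hx hd hf' b
    rw [hD, hD']
    refine ⟨?_, ?_, ?_⟩
    · show dotProduct (fd x y d (f' b)) (pt x y (f a)) ≠ 0
      rw [fdpt, ms_mul (hx _ _ (hA a b)), ← sub_mul]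
      refine mul_ne_zero ?_ (hx _ _ (hA a b))
      intro h0
      obtain ⟨c, c', h1, h2, h3⟩ := others b
      have k1 := hd _ _ _ (hf'.tr b c c' h1 h2 h3)
      have k2 : Tr x y (f' b) (f a) (f' c) :=
        ⟨(hA a b).symm, (hf'.ne b c h1).symm, (hA a c).symm, by rw [← k1]; exact sub_eq_zero.1 h0⟩
      exact hB a b _ (t1 _ _ _ k2).2
    · show dotProduct (fd x y d (f a)) (pt x y (f' b)) ≠ 0
      rw [fdpt, ms_mul (hx _ _ (hA a b).symm), ← sub_mul]
      refine mul_ne_zero ?_ (hx _ _ (hA a b).symm)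
      intro h0
      obtain ⟨c, c', h1, h2, h3⟩ := others a
      have k1 := hd _ _ _ (hf.tr a c c' h1 h2 h3)
      exact hB a b (f c) ⟨hA a b, (hf.ne a c h1).symm, hA c b, by
        rw [← k1]; exact sub_eq_zero.1 h0⟩
    · show dotProduct (fb x y τ g (f a)) (pt x y (f' b)) *
          dotProduct (fd x y d (f' b)) (pt x y (f a)) +
        dotProduct (fb x y τ g (f' b)) (pt x y (f a)) *
          dotProduct (fd x y d (f a)) (pt x y (f' b)) = 0
      rw [fbpt, fdpt, fbpt, fdpt]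
      exact R1 (f a) (f' b) (hA a b).symm (hB a b)

end Pool.Agent.Lib.MP_70c3c6_co.OD
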